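import Pool.Agent.T9h41.SG.Window
import Pool.Agent.TH167.SH.Conv

set_option autoImplicit false

/-!
# Nine arbitrary multiplicities: general points, and the constant
-/

namespace Pool.Agent.T9h41.SG

open MvPolynomial Pool.Agent.W609 Pool.Agent.W609.CR Pool.Agent.TH167.SH Pool.Agent.TH167.TT
  Pool.Agent.TH167.DD Pool.Agent.TH167.T3 Pool.Agent.H248R5 Pool.Agent.H248R6
  Pool.Agent.W641.CR Pool.Agent.TH167.SM Pool.Agent.TH167.RD

/-- The alternatives for a special system. -/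
theorem alt_all {K : Type} [Field K] [CharZero K] [IsAlgClosed K] {r d μ : ℕ} (hμ : 1 ≤ μ)
    {w : Fin (r + 4) → ℕ} {P : Fin (r + 4) → Fin 2 → K} (hg : Gen P d w)
    {S : Finset (Fin (r + 4))} (hS : S.card ≤ 9) (hw : ∀ j, j ∉ S → w j ≤ μ) {D : ℕ}
    (hD : Wid P d S D w) (hpos : 0 < Module.finrank K ↥(VS (fun j => aff (P j)) w d))
    (hsp : 0 < sp P d w) :
    (∃ g : MvPolynomial (Fin 3) K, 0 < g.totalDegree ∧
      ∀ f ∈ VS (fun j => aff (P j)) w d, g ^ 2 ∣ f) ∨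
    ((∃ i, i ∉ S ∧ 3 ≤ w i ∧
      (Module.finrank K ↥(VS (fun j => aff (P j)) w d) : ℤ) ≤ ((w i : ℤ) - 1) * (D + 1 - w i)) ∧
      (sp P d w : ℚ) ≤ kap μ * ((D : ℚ) + ((μ + 1).choose 2 : ℚ))) := by
  classical
  obtain ⟨f0, hf0, hf00⟩ := exists_mem hpos
  rcases bertini_sq (VS (fun j => aff (P j)) w d) (fun f hf => ((mem_VS _ _ _ _).1 hf).1)
    ⟨f0, hf0, hf00⟩ with ⟨f, hf, hsq⟩ | ⟨g, hgu, hg2⟩
  · right
    refine ⟨?_, sp_bound hμ hg hf hsq hS hw hD⟩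
    by_contra hcon
    push Not at hcon
    have h1 := sp_zero hS hg hD hf hsq (fun j hj => by
      rcases Nat.lt_or_ge 2 (w j) with h2 | h2
      · right
        have h3 := hcon j hj (by omega)
        rcases Nat.lt_or_ge (D + 1) (w j) with h4 | h4
        · have h5 : D + 1 - w j = 0 := by omega
          rw [h5, mul_zero]
          exact hpos
        · have h5 : (((w j - 1) * (D + 1 - w j) : ℕ) : ℤ) = ((w j : ℤ) - 1) * (D + 1 - w j) := by
            rw [Nat.cast_mul, Nat.cast_sub (by omega), Nat.cast_sub h4]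
            push_cast
            ring
          have h6 : (((w j - 1) * (D + 1 - w j) : ℕ) : ℤ) <
              (Module.finrank K ↥(VS (fun j => aff (P j)) w d) : ℤ) := by
            rw [h5]
            exact h3
          exact_mod_cast h6
      · exact Or.inl h2)
    omega
  · left
    refine ⟨g, ?_, hg2⟩
    rw [Nat.pos_iff_ne_zero]
    intro h0
    rw [totalDegree_eq_zero_iff_eq_C] at h0
    apply hgu
    rw [h0]
    refine (isUnit_iff_ne_zero.2 fun h1 => hf00 ?_).map C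
    have h2 := hg2 f0 hf0
    rw [h0, h1, C_0, zero_pow two_ne_zero, zero_dvd_iff] at h2
    exact h2

/-- Large multiplicities at a general point. -/
theorem wid_min {r : ℕ} (d : ℕ) (w : Fin (r + 4) → ℕ) {S A : Finset (Fin (r + 4))}
    (hAS : A ⊆ S) (hA : A.card ≤ 8) :
    ∃ F : MvPolynomial (Fin (r + 4) × Fin 2) ℚ, F ≠ 0 ∧
      ∀ (K : Type) [Field K] [CharZero K] (P : Fin (r + 4) → Fin 2 → K), evP P F ≠ 0 →
        Wid P d S (min d (3 * d - ∑ i ∈ A, w i)) w := by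
  classical
  obtain ⟨F, hF0, hF⟩ := open_box w d
  refine ⟨F, hF0, fun K _ _ P hP k hk => ?_⟩
  obtain ⟨D, hD⟩ : ∃ D, D = min d (3 * d - ∑ i ∈ A, w i) := ⟨_, rfl⟩
  rw [← hD]
  obtain ⟨L, i1, i2, i3, P0, hP0⟩ := exists_closed (r + 4)
  rw [hF K P hP L P0 hP0 (Function.update (rs S w) k (D + 1)) (mem_box.2 fun i => by
    by_cases hi : i = k
    · rw [hi, Function.update_self]
      have := min_le_left d (3 * d - ∑ i ∈ A, w i)
      omega
    · rw [Function.update_of_ne hi]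
      have := rs_le S w i
      omega)]
  by_contra hne
  obtain ⟨g, hg, hg0⟩ := exists_mem (Nat.pos_of_ne_zero hne)
  have hgm := (mem_VS _ _ _ _).1 hg
  have h1 := hgm.2 k
  rw [Function.update_self] at h1
  have h2 := van_le hg0 hgm.1 h1
  have hkA : k ∉ A := fun h => hk (hAS h)
  have h3 := nef9 (S := insert k A) (by
    rw [Finset.card_insert_of_notMem hkA]
    omega) hP0 d _ g hg0 hgm.1 hgm.2
  rw [Finset.sum_insert hkA, Function.update_self] at h3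
  have h4 : ∑ j ∈ A, Function.update (rs S w) k (D + 1) j = ∑ j ∈ A, w j := by
    refine Finset.sum_congr rfl fun j hj => ?_
    rw [Function.update_of_ne (fun h : j = k => hkA (by rw [← h]; exact hj))]
    unfold rs
    rw [if_pos (hAS hj)]
  rw [h4] at h3
  omega

theorem rho_le {μ q : ℕ} (hq : 1 ≤ q) (hqμ : q ≤ μ - 1) : rho μ q ≤ (μ : ℚ) / 2 * (q : ℚ)⁻¹ := by
  have hp := rho_pos (μ := μ) (q := q) (by omega)
  unfold rho
  rw [div_le_iff₀ hp]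
  obtain ⟨Q, hQ⟩ : ∃ Q, Q = max 2 q := ⟨_, rfl⟩
  rw [← hQ]
  have hqQ : q ≤ Q := by
    rw [hQ]
    exact le_max_right _ _
  have hQμ : Q ≤ μ := by omega
  obtain ⟨a, ha⟩ : ∃ a, μ = Q + a := ⟨μ - Q, by omega⟩
  have e1 : μ + 1 - Q = a + 1 := by omega
  have h1 := tch a
  have h2 := tch μ
  rw [e1]
  have h1' : (2 : ℚ) * ((a + 1).choose 2 : ℚ) = (a : ℚ) * (a + 1) := by exact_mod_cast h1
  have h2' : (2 : ℚ) * ((μ + 1).choose 2 : ℚ) = (μ : ℚ) * (μ + 1) := by exact_mod_cast h2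
  have hq0 : (0 : ℚ) < (q : ℚ) := by exact_mod_cast hq
  have hqQ' : (q : ℚ) ≤ (Q : ℚ) := by exact_mod_cast hqQ
  have hQ2 : (2 : ℚ) ≤ (Q : ℚ) := by
    rw [hQ]
    exact_mod_cast le_max_left 2 q
  have ha0 : (0 : ℚ) ≤ (a : ℚ) := Nat.cast_nonneg _
  have hμ' : (μ : ℚ) = Q + a := by
    rw [ha]
    push_cast
    rfl
  have h3 : (q : ℚ) * (2 * ((a + 1).choose 2 : ℚ)) ≤
      (μ : ℚ) / 2 * (2 * ((μ + 1).choose 2 : ℚ) - 2 * ((a + 1).choose 2 : ℚ)) := by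
    rw [h1', h2', hμ']
    have h4 : ((Q : ℚ) + a) / 2 * (((Q : ℚ) + a) * ((Q : ℚ) + a + 1) - (a : ℚ) * (a + 1)) =
        ((Q : ℚ) + a) / 2 * (Q * (Q + 2 * a + 1)) := by ring
    rw [h4]
    have h5 : (q : ℚ) * ((a : ℚ) * (a + 1)) ≤ Q * ((a : ℚ) * (a + 1)) :=
      mul_le_mul_of_nonneg_right hqQ' (by positivity)
    nlinarith [mul_nonneg ha0 ha0, mul_nonneg (mul_nonneg ha0 ha0) ha0, mul_nonneg (by linarith : (0:ℚ) ≤ (Q:ℚ)) ha0, mul_nonneg (mul_nonneg (by linarith : (0:ℚ) ≤ (Q:ℚ)) ha0) ha0, mul_nonneg (mul_nonneg (by linarith : (0:ℚ) ≤ (Q:ℚ)) (by linarith : (0:ℚ) ≤ (Q:ℚ))) ha0]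
  have h6 : (μ : ℚ) / 2 * (q : ℚ)⁻¹ * (((μ + 1).choose 2 : ℚ) - ((a + 1).choose 2 : ℚ)) =
      ((μ : ℚ) / 2 * (2 * ((μ + 1).choose 2 : ℚ) - 2 * ((a + 1).choose 2 : ℚ))) / (2 * q) := by
    field_simp
  rw [h6, le_div_iff₀ (by positivity)]
  linarith

theorem kap_le (μ : ℕ) : kap μ ≤ (μ : ℚ) / 2 * harmonic (μ - 1) := by
  classical
  unfold kap harmonic
  rw [Finset.mul_sum]
  have h1 : ∑ i ∈ Finset.range (μ - 1), (μ : ℚ) / 2 * (((i + 1 : ℕ) : ℚ))⁻¹ =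
      ∑ q ∈ Finset.Icc 1 (μ - 1), (μ : ℚ) / 2 * ((q : ℕ) : ℚ)⁻¹ := by
    rw [Finset.range_eq_Ico, Finset.sum_Ico_add' (fun i : ℕ => (μ : ℚ) / 2 * ((i : ℕ) : ℚ)⁻¹) 0
      (μ - 1) 1]
    refine Finset.sum_congr ?_ fun _ _ => rfl
    ext x
    rw [Finset.mem_Ico, Finset.mem_Icc]
    omega
  rw [h1]
  refine Finset.sum_le_sum fun q hq => ?_
  rw [Finset.mem_Icc] at hq
  exact rho_le hq.1 hq.2

end Pool.Agent.T9h41.SG
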