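import Pool.Agent.T9h41.SG.Window
import Pool.Agent.TH167.SH.Conv

set_option autoImplicit false

/-!
# Systems with a reduced member: the adjoint systems at general points
-/

namespace Pool.Agent.T9h41.SG

open MvPolynomial Pool.Agent.W609 Pool.Agent.W609.CR Pool.Agent.TH167.SH Pool.Agent.TH167.TT
  Pool.Agent.TH167.DD Pool.Agent.TH167.T3 Pool.Agent.H248R5 Pool.Agent.H248R6
  Pool.Agent.W641.CR Pool.Agent.TH167.SM Pool.Agent.TH167.RD

/-- The adjoint systems. -/
theorem adj_all {K : Type} [Field K] [CharZero K] [IsAlgClosed K] {r d : ℕ}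
    {w : Fin (r + 4) → ℕ} {P : Fin (r + 4) → Fin 2 → K} (hg : Gen P d w)
    {f : MvPolynomial (Fin 3) K} (hf : f ∈ VS (fun j => aff (P j)) w d) (hsq : Squarefree f)
    {S : Finset (Fin (r + 4))} (hS : S.card ≤ 9) {u : Fin (r + 4) → ℕ}
    (hu : ∀ i, u i ≤ al S w i) : sp P d u = 0 := by
  classical
  obtain ⟨L, i1, i2, i3, A, G, hA, hG, hGsq⟩ := sq_generic (P := P) (w := w) (d := d)
    (fun K0 _ _ P0 hP0 => hg K0 P0 hP0 w (mem_box.2 fun i => by omega)) hf hsq
  have hdim : sp P d u = sp A d u := by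
    unfold sp
    rw [hg L A hA u (mem_box.2 fun i => by
      have := hu i
      have := al_le S w i
      omega)]
  rw [hdim]
  refine le_antisymm ?_ (sp_nonneg _ _ _)
  obtain ⟨F, hF, hFsq, hX⟩ := no_X2 hG hGsq
  have hFm := (mem_VS _ _ _ _).1 hF
  choose w' hw' using fun j => exists_ord (p := A j) hFsq.ne_zero hFm.1
  have hle : ∀ j, w j ≤ w' j := by
    intro j
    by_contra hcon
    push Not at hcon
    exact (hw' j).2 (van_mono (by omega) (hFm.2 j))
  have h1 := adj9 hS hA hFsq hX hFm.1 hw'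
  have h2 := sp_mono A d (w := u) (w' := al S w') (fun j => by
    have h3 := hu j
    have h4 := hle j
    unfold al at h3 ⊢
    split_ifs at h3 ⊢ <;> omega)
  refine h2.trans ?_
  unfold sp
  linarith

end Pool.Agent.T9h41.SG
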