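import Pool.Agent.T9h41.SG.RR

set_option autoImplicit false

/-!
# The adjoint conditions of reduced curves are independent
-/

namespace Pool.Agent.T9h41.SG

open MvPolynomial Pool.Agent.W609 Pool.Agent.W609.CR Pool.Agent.TH167.SH Pool.Agent.TH167.TT
  Pool.Agent.TH167.DD Pool.Agent.TH167.T3 Pool.Agent.H248R5

theorem al_le {s : ℕ} (S : Finset (Fin s)) (w : Fin s → ℕ) (j : Fin s) : al S w j ≤ w j := by
  unfold al
  split_ifs <;> omega

theorem two_ch (x : ℕ) : 2 * (((x + 1).choose 2 : ℕ) : ℤ) = (x : ℤ) * x + x := by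
  rcases Nat.eq_zero_or_pos x with rfl | hx
  · rfl
  · obtain ⟨y, rfl⟩ : ∃ y, x = y + 1 := ⟨x - 1, by omega⟩
    have := H932R7.two_choose y
    have h2 : ((2 * (y + 2).choose 2 : ℕ) : ℤ) = (((y + 1) * (y + 2) : ℕ) : ℤ) := by rw [this]
    push_cast at h2 ⊢
    show 2 * (((y + 2).choose 2 : ℕ) : ℤ) = _
    rw [h2]
    ring

/-- Adding a prime divisor. -/
theorem adj_step {K : Type} [Field K] [CharZero K] [IsAlgClosed K] {s : ℕ}
    {P : Fin s → Fin 2 → K} (hP : Function.Injective P) (S : Finset (Fin s))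
    {G : MvPolynomial (Fin 3) K} {a b : ℕ} {u v : Fin s → ℕ} (hG : Irreducible G)
    (hGa : G.IsHomogeneous a) (hX : ¬ (X 2 : MvPolynomial (Fin 3) K) ∣ G)
    (hu : ∀ j, Ord (aff (P j)) (u j) G)
    (hpos : ∑ j, u j * v j + ∑ j ∈ S, u j < a * b + 3 * a)
    (hb : (Module.finrank K ↥(VS (fun j => aff (P j)) (al S v) b) : ℤ) ≤ chi b (al S v)) :
    (Module.finrank K ↥(VS (fun j => aff (P j)) (al S fun j => u j + v j) (a + b)) : ℤ) ≤
      chi (a + b) (al S fun j => u j + v j) := by
  classical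
  obtain ⟨w, hw⟩ : ∃ w, w = fun j => u j + v j := ⟨_, rfl⟩
  rw [← hw]
  have hwj : ∀ j, w j = u j + v j := fun j => by rw [hw]
  have hZf : Module.Finite K ↥((VS (fun j => aff (P j)) (al S v) b).map (LinearMap.mulLeft K G)) := by
    have := vs_fin (fun j => aff (P j)) (al S v) b
    infer_instance
  have h1 := rr (a := a + b) hG hGa hX hP (w := u) (v := al S w) hu (by
    have h2 : ∑ j, u j * (al S w j + 1) = ∑ j, u j * u j + (∑ j, u j * v j + ∑ j ∈ S, u j) := by
      have h3 : ∑ j ∈ S, u j = ∑ j, if j ∈ S then u j else 0 := by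
        rw [Finset.sum_ite_mem, Finset.univ_inter]
      rw [h3, ← Finset.sum_add_distrib, ← Finset.sum_add_distrib]
      refine Finset.sum_congr rfl fun j _ => ?_
      unfold al
      rw [hwj]
      split_ifs
      · ring
      · rcases Nat.eq_zero_or_pos (u j) with h0 | h0
        · rw [h0]
          ring
        · have h4 : u j + v j - 1 + 1 = u j + v j := by omega
          rw [h4]
          ring
    rw [h2]
    nlinarith) ((VS (fun j => aff (P j)) (al S v) b).map (LinearMap.mulLeft K G)) (by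
    rintro f hf ⟨h, hh⟩
    have hf' := (mem_VS _ _ _ _).1 hf
    rcases eq_or_ne f 0 with hf0 | hf0
    · rw [hf0]
      exact Submodule.zero_mem _
    have hh0 : h ≠ 0 := fun h0 => hf0 (by rw [hh, h0, mul_zero])
    have hhe := Pool.Agent.Chud.homog_of_dvd hf'.1 hf0 (⟨G, by rw [hh]; ring⟩ : h ∣ f)
    have hdeg : h.totalDegree = b := by
      have h2 := hGa.mul hhe
      rw [← hh] at h2
      have := h2.inj_right hf'.1 hf0
      omega
    rw [hdeg] at hhe
    refine ⟨h, (mem_VS _ _ _ _).2 ⟨hhe, fun j => ?_⟩, hh.symm⟩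
    rcases Nat.eq_zero_or_pos (al S v j) with h0 | h0
    · rw [h0]
      exact van_zero _ _
    · have h3 := hf'.2 j
      rw [hh] at h3
      refine van_of_mul (hu j) (van_mono ?_ h3)
      unfold al at h0 ⊢
      rw [hwj]
      split_ifs at h0 ⊢ <;> omega)
  rw [Pool.Agent.TH167.RD.map_mul_finrank hG.ne_zero] at h1
  -- arithmetic
  have e1 : (2 : ℤ) * chi (a + b) (al S w) = ((a : ℤ) + b + 1) * (a + b + 2) -
      (∑ j, (al S w j : ℤ) * al S w j + ∑ j, (al S w j : ℤ)) := by
    rw [chi_cast, mul_sub]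
    have h2 := H932R7.two_choose (a + b)
    have h3 : (2 : ℤ) * (((a + b + 2).choose 2 : ℕ) : ℤ) = ((a : ℤ) + b + 1) * (a + b + 2) := by
      exact_mod_cast h2
    have h4 : (2 : ℤ) * ((∑ j, (al S w j + 1).choose 2 : ℕ) : ℤ) =
        ∑ j, (al S w j : ℤ) * al S w j + ∑ j, (al S w j : ℤ) := by
      rw [Nat.cast_sum, Finset.mul_sum, ← Finset.sum_add_distrib]
      exact Finset.sum_congr rfl fun j _ => two_ch _
    rw [h3, h4]
  have e2 : (2 : ℤ) * chi b (al S v) = ((b : ℤ) + 1) * (b + 2) -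
      (∑ j, (al S v j : ℤ) * al S v j + ∑ j, (al S v j : ℤ)) := by
    rw [chi_cast, mul_sub]
    have h2 := H932R7.two_choose b
    have h3 : (2 : ℤ) * (((b + 2).choose 2 : ℕ) : ℤ) = ((b : ℤ) + 1) * (b + 2) := by
      exact_mod_cast h2
    have h4 : (2 : ℤ) * ((∑ j, (al S v j + 1).choose 2 : ℕ) : ℤ) =
        ∑ j, (al S v j : ℤ) * al S v j + ∑ j, (al S v j : ℤ) := by
      rw [Nat.cast_sum, Finset.mul_sum, ← Finset.sum_add_distrib]
      exact Finset.sum_congr rfl fun j _ => two_ch _
    rw [h3, h4]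
  have e3 : ∑ j, (al S w j : ℤ) * al S w j + ∑ j, (al S w j : ℤ) + ∑ j, (u j : ℤ) * u j =
      ∑ j, (al S v j : ℤ) * al S v j + ∑ j, (al S v j : ℤ) + 2 * ∑ j, (u j : ℤ) * al S w j +
        ∑ j, (u j : ℤ) := by
    rw [Finset.mul_sum, ← Finset.sum_add_distrib, ← Finset.sum_add_distrib,
      ← Finset.sum_add_distrib, ← Finset.sum_add_distrib, ← Finset.sum_add_distrib]
    refine Finset.sum_congr rfl fun j _ => ?_
    unfold al
    rw [hwj]
    split_ifs
    · push_cast
      ring
    · rcases Nat.eq_zero_or_pos (v j) with h0 | h0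
      · rcases Nat.eq_zero_or_pos (u j) with h5 | h5
        · rw [h0, h5]
          simp
        · obtain ⟨x, hx⟩ : ∃ x, u j = x + 1 := ⟨u j - 1, by omega⟩
          rw [h0, hx]
          have h6 : x + 1 + 0 - 1 = x := by omega
          rw [h6]
          push_cast
          ring
      · obtain ⟨x, hx⟩ : ∃ x, v j = x + 1 := ⟨v j - 1, by omega⟩
        rw [hx]
        have h6 : u j + (x + 1) - 1 = u j + x := by omega
        rw [h6, Nat.add_sub_cancel]
        push_cast
        ring
  have h1' : (2 : ℤ) * (Module.finrank K ↥(VS (fun j => aff (P j)) (al S w) (a + b)) : ℤ) +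
      (a : ℤ) * a + 2 * ∑ j, (u j : ℤ) * al S w j + ∑ j, (u j : ℤ) ≤
      2 * (Module.finrank K ↥(VS (fun j => aff (P j)) (al S v) b) : ℤ) +
        2 * (((a : ℤ) + b) * a) + 3 * a + ∑ j, (u j : ℤ) * u j := by
    exact_mod_cast h1
  nlinarith

/-- The adjoint conditions of a reduced curve whose components are negative on the canonical class
of the blow-up of the points of `S`. -/
theorem adj_red {K : Type} [Field K] [CharZero K] [IsAlgClosed K] {s : ℕ}
    {P : Fin s → Fin 2 → K} (hP : Function.Injective P) (S : Finset (Fin s)) :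
    ∀ (e : ℕ) (w : Fin s → ℕ) (F : MvPolynomial (Fin 3) K), Squarefree F →
      ¬ (X 2 : MvPolynomial (Fin 3) K) ∣ F → F.IsHomogeneous e → (∀ j, Ord (aff (P j)) (w j) F) →
      (∀ (C : MvPolynomial (Fin 3) K) (c : ℕ) (u : Fin s → ℕ), Irreducible C →
        C.IsHomogeneous c → (∀ j, Ord (aff (P j)) (u j) C) → C ∣ F → ∑ j ∈ S, u j < 3 * c) →
      (Module.finrank K ↥(VS (fun j => aff (P j)) (al S w) e) : ℤ) ≤ chi e (al S w) ∧
        (∑ j ∈ S, w j < 3 * e ∨ (e = 0 ∧ ∀ j, w j = 0)) := by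
  classical
  intro e
  induction e using Nat.strong_induction_on with
  | _ e ih =>
    intro w F hsq hX hFe hord hneg
    have hF0 : F ≠ 0 := hsq.ne_zero
    by_cases hu : IsUnit F
    · have he : e = 0 := Pool.Agent.TH167.SM.unit_deg hFe hF0 hu
      subst he
      have hw : ∀ j, w j = 0 := by
        intro j
        have := van_le hF0 hFe (hord j).1
        omega
      refine ⟨?_, Or.inr ⟨rfl, hw⟩⟩
      have hal : ∀ j, al S w j = 0 := fun j => by
        have := al_le S w j
        have := hw j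
        omega
      rw [chi_cast]
      have h2 : ∑ j, (al S w j + 1).choose 2 = 0 :=
        Finset.sum_eq_zero fun j _ => by rw [hal j]; rfl
      have h3 : (0 + 2).choose 2 = 1 := rfl
      have hfin : Module.Finite K ↥(homogeneousSubmodule (Fin 3) K 0) :=
        Module.Finite.iff_fg.2 (homogeneousSubmodule_fg _ _ 0)
      have h4 : VS (fun j => aff (P j)) (al S w) 0 ≤ homogeneousSubmodule (Fin 3) K 0 :=
        fun f hf => ((mem_VS _ _ _ _).1 hf).1
      have h5 := Submodule.finrank_mono h4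
      rw [H248R6.finrank_homog] at h5
      rw [h2, h3]
      rw [h3] at h5
      push_cast
      omega
    · obtain ⟨G1, hG1, hG1d⟩ := WfDvdMonoid.exists_irreducible_factor hu hF0
      obtain ⟨H, hH⟩ := hG1d
      have hH0 : H ≠ 0 := fun h0 => hF0 (by rw [hH, h0, mul_zero])
      have hG1e := Pool.Agent.Chud.homog_of_dvd hFe hF0 (⟨H, hH⟩ : G1 ∣ F)
      have hHe := Pool.Agent.Chud.homog_of_dvd hFe hF0 (⟨G1, by rw [hH]; ring⟩ : H ∣ F)
      obtain ⟨a, ha⟩ : ∃ a, a = G1.totalDegree := ⟨_, rfl⟩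
      obtain ⟨b, hb⟩ : ∃ b, b = H.totalDegree := ⟨_, rfl⟩
      rw [← ha] at hG1e
      rw [← hb] at hHe
      have ha0 := deg_pos hG1 hG1e
      have hdeg : a + b = e := by
        have h2 := hG1e.mul hHe
        rw [← hH] at h2
        exact h2.inj_right hFe hF0
      choose u hu2 using fun j => exists_ord (p := P j) hG1.ne_zero hG1e
      choose v hv2 using fun j => exists_ord (p := P j) hH0 hHe
      have hw : w = fun j => u j + v j := by
        funext j
        have h2 := ord_mul (hu2 j) (hv2 j)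
        rw [← hH] at h2
        exact ord_unique (hord j) h2
      have hnd : ¬ G1 ∣ H := by
        rintro ⟨q, hq⟩
        exact hG1.not_isUnit (hsq G1 ⟨q, by rw [hH, hq]; ring⟩)
      have hHsq : Squarefree H := by
        rw [hH] at hsq
        exact hsq.of_mul_right
      have hHF : H ∣ F := ⟨G1, by rw [hH]; ring⟩
      have hGF : G1 ∣ F := ⟨H, hH⟩
      obtain ⟨i1, i2⟩ := ih b (by omega) v H hHsq (fun h => hX (h.trans hHF)) hHe hv2
        (fun C c t h1 h2 h3 h4 => hneg C c t h1 h2 h3 (h4.trans hHF))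
      have b1 := hneg G1 a u hG1 hG1e hu2 hGF
      have b3 := bez hP hG1 hG1e (fun j => (hu2 j).1) hH0 hHe (fun j => (hv2 j).1) hnd
      have hsw : ∑ j ∈ S, w j = ∑ j ∈ S, u j + ∑ j ∈ S, v j := by
        rw [hw, ← Finset.sum_add_distrib]
      constructor
      · rw [hw, ← hdeg]
        exact adj_step hP S hG1 hG1e (fun h => hX (h.trans hGF)) hu2 (by omega) i1
      · left
        rcases i2 with h | ⟨h1, h2⟩
        · omega
        · have h3 : ∑ j ∈ S, v j = 0 := Finset.sum_eq_zero fun j _ => h2 j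
          omega

/-- The adjoint conditions of a reduced curve, for at most nine points. -/
theorem adj9 {K : Type} [Field K] [CharZero K] [IsAlgClosed K] {r : ℕ}
    {S : Finset (Fin (r + 4))} (hS : S.card ≤ 9) {P : Fin (r + 4) → Fin 2 → K}
    (hP : AlgebraicIndependent ℚ (fun ij : Fin (r + 4) × Fin 2 => P ij.1 ij.2))
    {e : ℕ} {w : Fin (r + 4) → ℕ} {F : MvPolynomial (Fin 3) K} (hsq : Squarefree F)
    (hX : ¬ (X 2 : MvPolynomial (Fin 3) K) ∣ F) (hFe : F.IsHomogeneous e)
    (hord : ∀ j, Ord (aff (P j)) (w j) F) :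
    (Module.finrank K ↥(VS (fun j => aff (P j)) (al S w) e) : ℤ) ≤ chi e (al S w) := by
  classical
  have hinj := inj_of_alg hP
  by_cases hneg : ∀ (C : MvPolynomial (Fin 3) K) (c : ℕ) (u : Fin (r + 4) → ℕ), Irreducible C →
      C.IsHomogeneous c → (∀ j, Ord (aff (P j)) (u j) C) → C ∣ F → ∑ j ∈ S, u j < 3 * c
  · exact (adj_red hinj S e w F hsq hX hFe hord hneg).1
  push Not at hneg
  obtain ⟨C, c, u, hC, hCc, hu, hCF, hge⟩ := hneg
  rcases irr9 hS hP hC hCc hu with h | ⟨hc3, hS9, hu1, hu0, hfr⟩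
  · omega
  subst hc3
  have hF0 : F ≠ 0 := hsq.ne_zero
  obtain ⟨H, hH⟩ := hCF
  have hH0 : H ≠ 0 := fun h0 => hF0 (by rw [hH, h0, mul_zero])
  have hHF : H ∣ F := ⟨C, by rw [hH]; ring⟩
  have hHe := Pool.Agent.Chud.homog_of_dvd hFe hF0 hHF
  obtain ⟨b, hb⟩ : ∃ b, b = H.totalDegree := ⟨_, rfl⟩
  rw [← hb] at hHe
  have hdeg : 3 + b = e := by
    have h2 := hCc.mul hHe
    rw [← hH] at h2
    exact h2.inj_right hFe hF0
  choose v hv2 using fun j => exists_ord (p := P j) hH0 hHe
  have hw : w = fun j => u j + v j := by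
    funext j
    have h2 := ord_mul (hu j) (hv2 j)
    rw [← hH] at h2
    exact ord_unique (hord j) h2
  have hnd : ¬ C ∣ H := by
    rintro ⟨q, hq⟩
    exact hC.not_isUnit (hsq C ⟨q, by rw [hH, hq]; ring⟩)
  have hHsq : Squarefree H := by
    rw [hH] at hsq
    exact hsq.of_mul_right
  have huS : ∀ j ∈ S, u j = 1 := by
    intro j hj
    by_contra hcon
    have h0 : u j = 0 := by
      have := hu1 j
      omega
    have h1 : ∑ i ∈ S, u i ≤ ∑ i ∈ S.erase j, 1 := by
      rw [← Finset.add_sum_erase S u hj, h0, zero_add]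
      exact Finset.sum_le_sum fun i _ => hu1 i
    rw [Finset.sum_const, smul_eq_mul, mul_one, Finset.card_erase_of_mem hj] at h1
    omega
  have hinj' := inj_of_alg hP
  obtain ⟨i1, i2⟩ := adj_red hinj S b v H hHsq (fun h => hX (h.trans hHF)) hHe hv2
    (fun D c t h1 h2 h3 h4 => by
      by_contra hcon
      rcases irr9 hS hP h1 h2 h3 with h5 | ⟨h5, h6, h7, h8, h9⟩
      · exact hcon h5
      subst h5
      have htu : t = u := by
        funext j
        by_cases hj : j ∈ S
        · rw [huS j hj]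
          by_contra hne
          have h0 : t j = 0 := by
            have := h7 j
            omega
          have h10 : ∑ i ∈ S, t i ≤ ∑ i ∈ S.erase j, 1 := by
            rw [← Finset.add_sum_erase S t hj, h0, zero_add]
            exact Finset.sum_le_sum fun i _ => h7 i
          rw [Finset.sum_const, smul_eq_mul, mul_one, Finset.card_erase_of_mem hj] at h10
          omega
        · rw [hu0 j hj, h8 j hj]
      rw [htu] at h3
      have m1 : C ∈ VS (fun j => aff (P j)) u 3 := (mem_VS _ _ _ _).2 ⟨hCc, fun j => (hu j).1⟩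
      have m2 : D ∈ VS (fun j => aff (P j)) u 3 := (mem_VS _ _ _ _).2 ⟨h2, fun j => (h3 j).1⟩
      obtain ⟨x, hx⟩ := (finrank_eq_one_iff_of_nonzero'
        (⟨D, m2⟩ : ↥(VS (fun j => aff (P j)) u 3))
        (fun h => h1.ne_zero (congrArg Subtype.val h))).1 hfr ⟨C, m1⟩
      have hx' : x • D = C := congrArg Subtype.val hx
      have hx0 : x ≠ 0 := by
        rintro rfl
        rw [zero_smul] at hx'
        exact hC.ne_zero hx'.symm
      apply hnd
      refine Dvd.dvd.trans ?_ h4
      refine ⟨MvPolynomial.C x⁻¹, ?_⟩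
      rw [← hx', smul_eq_C_mul, mul_comm, ← mul_assoc, ← MvPolynomial.C_mul, inv_mul_cancel₀ hx0,
        MvPolynomial.C_1, one_mul])
  rcases i2 with h1 | ⟨h1, h2⟩
  · rw [hw, ← hdeg]
    refine adj_step hinj S hC hCc (fun h => hX (h.trans ⟨H, hH⟩)) hu ?_ i1
    have h3 : ∑ j, u j * v j = ∑ j ∈ S, v j := by
      rw [← Finset.sum_subset (Finset.subset_univ S) fun j _ hj => by rw [hu0 j hj, zero_mul]]
      exact Finset.sum_congr rfl fun j hj => by rw [huS j hj, one_mul]
    omega
  · have hwu : w = u := by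
      rw [hw]
      funext j
      rw [h2 j, add_zero]
    have he3 : e = 3 := by omega
    subst he3
    have hal : al S w = u := by
      rw [hwu]
      funext j
      unfold al
      by_cases hj : j ∈ S
      · rw [if_pos hj]
      · rw [if_neg hj, hu0 j hj]
    rw [hal, hfr, chi_cast]
    have h3 : ∑ j, (u j + 1).choose 2 = 9 := by
      rw [← hS9, ← Finset.sum_subset (Finset.subset_univ S) fun j _ hj => by rw [hu0 j hj]; rfl]
      exact Finset.sum_congr rfl fun j hj => by rw [huS j hj]; rfl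
    rw [h3]
    decide

end Pool.Agent.T9h41.SG
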