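import Mathlib
import Pool.Agent.TH167.SM.Pos2

set_option autoImplicit false

/-!
# The theorem of Bertini: a linear system of curves without a multiple fixed component has a reduced
member
-/

namespace Pool.Agent.T9h41.SG

open MvPolynomial

/-- A pencil without fixed components: all but finitely many members are reduced and have no common
component with a given curve. -/
theorem pencil_sq {K : Type} [Field K] [CharZero K] {n : ℕ} {f g : MvPolynomial (Fin 3) K}
    (hf : f.IsHomogeneous n) (hg : g.IsHomogeneous n) (hfg : IsRelPrime f g)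
    {N : MvPolynomial (Fin 3) K} (hN : N ≠ 0) :
    ∃ t : K, Squarefree (f + C t * g) ∧ IsRelPrime N (f + C t * g) := by
  classical
  rcases Nat.eq_zero_or_pos n with hn | hn
  · subst hn
    have e1 : f = C (coeff 0 f) :=
      totalDegree_eq_zero_iff_eq_C.1 (Nat.le_zero.1 hf.totalDegree_le)
    have e2 : g = C (coeff 0 g) :=
      totalDegree_eq_zero_iff_eq_C.1 (Nat.le_zero.1 hg.totalDegree_le)
    have hu : ∃ t : K, IsUnit (f + C t * g) := by
      by_cases h : coeff 0 f = 0
      · refine ⟨1, ?_⟩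
        have h1 : f = 0 := by rw [e1, h, C_0]
        rw [h1, zero_add, C_1, one_mul]
        exact hfg (h1 ▸ dvd_zero g) dvd_rfl
      · refine ⟨0, ?_⟩
        rw [C_0, zero_mul, add_zero, e1]
        exact (isUnit_iff_ne_zero.2 h).map C
    obtain ⟨t, ht⟩ := hu
    exact ⟨t, ht.squarefree, ht.isRelPrime_right⟩
  -- a nonzero minor
  obtain ⟨W, hW⟩ : ∃ W : Fin 3 → MvPolynomial (Fin 3) K,
    ∀ i, W i = pderiv i f * g - f * pderiv i g := ⟨fun i => _, fun i => rfl⟩
  obtain ⟨i, hi⟩ : ∃ i, W i ≠ 0 := by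
    by_contra hcon
    push Not at hcon
    have h1 : ∀ i, f ∣ pderiv i f := by
      intro i
      have h2 := hcon i
      rw [hW, sub_eq_zero] at h2
      exact hfg.dvd_of_dvd_mul_right ⟨pderiv i g, h2⟩
    have h2 : ∀ i, pderiv i f = 0 := by
      intro i
      by_contra hne
      obtain ⟨y, hy⟩ := h1 i
      have hf0 : f ≠ 0 := by
        rintro rfl
        rw [map_zero] at hne
        exact hne rfl
      have hy0 : y ≠ 0 := by
        rintro rfl
        rw [mul_zero] at hy
        exact hne hy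
      have h3 : (pderiv i f).totalDegree = f.totalDegree + y.totalDegree := by
        rw [hy, totalDegree_mul_of_isDomain hf0 hy0]
      rw [(hf.pderiv (i := i)).totalDegree hne, hf.totalDegree hf0] at h3
      omega
    have h3 := hf.sum_X_mul_pderiv
    rw [Finset.sum_eq_zero fun i _ => by rw [h2 i, mul_zero]] at h3
    have h4 : f = 0 := by
      rcases smul_eq_zero.1 h3.symm with h | h
      · omega
      · exact h
    have h5 : IsUnit g := hfg (h4 ▸ dvd_zero g) dvd_rfl
    have h6 : g ≠ 0 := h5.ne_zero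
    have h7 := Pool.Agent.TH167.SM.unit_deg hg h6 h5
    omega
  obtain ⟨M, hM⟩ : ∃ M, M = N * W i := ⟨_, rfl⟩
  have hM0 : M ≠ 0 := by
    rw [hM]
    exact mul_ne_zero hN hi
  obtain ⟨s, hs1, hs2⟩ := UniqueFactorizationMonoid.exists_prime_factors M hM0
  obtain ⟨T, hT⟩ : ∃ T : Finset K, ∀ q ∈ s, ∀ t : K, q ∣ f + C t * g → t ∈ T := by
    refine ⟨s.toFinset.image fun q => if h : ∃ t : K, q ∣ f + C t * g then h.choose else 0, ?_⟩
    intro q hq t ht
    rw [Finset.mem_image]
    refine ⟨q, Multiset.mem_toFinset.2 hq, ?_⟩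
    have hex : ∃ t : K, q ∣ f + C t * g := ⟨t, ht⟩
    rw [dif_pos hex]
    by_contra hne
    have h1 := dvd_sub hex.choose_spec ht
    have h2 : f + C hex.choose * g - (f + C t * g) = C (hex.choose - t) * g := by
      rw [C_sub]
      ring
    rw [h2] at h1
    have hu : IsUnit (C (hex.choose - t) : MvPolynomial (Fin 3) K) :=
      (isUnit_iff_ne_zero.2 (sub_ne_zero.2 hne)).map C
    have h3 : q ∣ g := (hu.dvd_mul_left).1 h1
    have h4 : q ∣ f := (dvd_add_left (h3.mul_left _)).1 ht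
    exact (hs1 q hq).not_isUnit (hfg h4 h3)
  obtain ⟨t, ht⟩ := Infinite.exists_notMem_finset T
  obtain ⟨F, hF⟩ : ∃ F, F = f + C t * g := ⟨_, rfl⟩
  have key : ∀ p, Prime p → p ∣ F → p ∣ M → False := by
    intro p hp h1 h2
    have h3 : p ∣ s.prod := h2.trans hs2.symm.dvd
    obtain ⟨q, hq, hpq⟩ := hp.exists_mem_multiset_dvd h3
    have h4 : Associated p q := (hp.irreducible.dvd_irreducible_iff_associated
      (hs1 q hq).irreducible).1 hpq
    refine ht (hT q hq t ?_)
    rw [← hF]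
    exact h4.symm.dvd.trans h1
  refine ⟨t, ?_, ?_⟩
  · rw [← hF]
    intro x hx
    by_contra hxu
    have hF0 : F ≠ 0 := by
      intro h0
      have hp : ∃ p ∈ s, True := by
        by_contra hcon
        push Not at hcon
        have hs0 : s = 0 := Multiset.eq_zero_of_forall_notMem fun p hp => hcon p hp
        -- `M` is a unit, so `W i` is a unit, but it is homogeneous of degree `2 n - 1`
        rw [hs0, Multiset.prod_zero] at hs2
        have h1 : IsUnit M := hs2.isUnit isUnit_one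
        have h2 : IsUnit (W i) := isUnit_of_mul_isUnit_right (hM ▸ h1)
        have h3 : (W i).IsHomogeneous (n - 1 + n) := by
          rw [hW]
          have h4 := (hf.pderiv (i := i)).mul hg
          have h5 := hf.mul (hg.pderiv (i := i))
          have h6 : n + (n - 1) = n - 1 + n := by omega
          rw [h6] at h5
          exact h4.sub h5
        have h7 := Pool.Agent.TH167.SM.unit_deg h3 hi h2
        omega
      obtain ⟨p, hp, -⟩ := hp
      exact key p (hs1 p hp) (h0 ▸ dvd_zero p) ((Multiset.dvd_prod hp).trans hs2.dvd)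
    have hx0 : x ≠ 0 := by
      rintro rfl
      rw [mul_zero] at hx
      exact hF0 (zero_dvd_iff.1 hx)
    obtain ⟨p, hp, hpx⟩ := WfDvdMonoid.exists_irreducible_factor hxu hx0
    obtain ⟨y, hy⟩ := (mul_dvd_mul hpx hpx).trans hx
    have h1 : p ∣ F := ⟨p * y, by rw [hy]; ring⟩
    have h2 : p ∣ pderiv i F := by
      rw [hy, pderiv_mul, pderiv_mul]
      refine ⟨pderiv i p * y + pderiv i p * y + p * pderiv i y, ?_⟩
      ring
    have h3 : W i = pderiv i F * g - F * pderiv i g := by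
      rw [hW, hF, map_add, pderiv_C_mul]
      ring
    have h4 : p ∣ W i := by
      rw [h3]
      exact dvd_sub (h2.mul_right _) (h1.mul_right _)
    exact key p hp.prime h1 (hM ▸ h4.mul_left _)
  · rw [← hF]
    intro x hx1 hx2
    by_contra hxu
    have hx0 : x ≠ 0 := by
      rintro rfl
      exact hN (zero_dvd_iff.1 hx1)
    obtain ⟨p, hp, hpx⟩ := WfDvdMonoid.exists_irreducible_factor hxu hx0
    exact key p hp.prime (hpx.trans hx2) (hM ▸ (hpx.trans hx1).mul_right _)

/-- The theorem of Bertini for reducedness. -/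
theorem bertini_sq {K : Type} [Field K] [CharZero K]
    (V : Submodule K (MvPolynomial (Fin 3) K)) {n : ℕ} (hV : ∀ f ∈ V, f.IsHomogeneous n)
    (hne : ∃ f ∈ V, f ≠ 0) :
    (∃ f ∈ V, Squarefree f) ∨ ∃ g : MvPolynomial (Fin 3) K, ¬ IsUnit g ∧ ∀ f ∈ V, g ^ 2 ∣ f := by
  classical
  obtain ⟨f0, hf0, hf00⟩ := hne
  -- a common divisor of maximal degree
  have hP0 : ∃ D : MvPolynomial (Fin 3) K, D.totalDegree = 0 ∧ ∀ f ∈ V, D ∣ f :=
    ⟨1, totalDegree_one, fun f _ => one_dvd f⟩
  obtain ⟨m, hm, hmax⟩ : ∃ m, (∃ D : MvPolynomial (Fin 3) K, D.totalDegree = m ∧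
      ∀ f ∈ V, D ∣ f) ∧ ∀ D : MvPolynomial (Fin 3) K, (∀ f ∈ V, D ∣ f) → D.totalDegree ≤ m := by
    refine ⟨Nat.findGreatest (fun m => ∃ D : MvPolynomial (Fin 3) K, D.totalDegree = m ∧
      ∀ f ∈ V, D ∣ f) f0.totalDegree, ?_, fun D hD => ?_⟩
    · exact Nat.findGreatest_spec (P := fun m => ∃ D : MvPolynomial (Fin 3) K,
        D.totalDegree = m ∧ ∀ f ∈ V, D ∣ f) (Nat.zero_le _) hP0
    · refine Nat.le_findGreatest ?_ ⟨D, rfl, hD⟩
      obtain ⟨y, hy⟩ := hD f0 hf0
      have hD0 : D ≠ 0 := fun h => hf00 (by rw [hy, h, zero_mul])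
      have hy0 : y ≠ 0 := fun h => hf00 (by rw [hy, h, mul_zero])
      rw [hy, totalDegree_mul_of_isDomain hD0 hy0]
      omega
  obtain ⟨D, hDm, hDV⟩ := hm
  obtain ⟨h0, hh0⟩ := hDV f0 hf0
  have hD0 : D ≠ 0 := fun h => hf00 (by rw [hh0, h, zero_mul])
  have hh00 : h0 ≠ 0 := fun h => hf00 (by rw [hh0, h, mul_zero])
  by_cases hDsq : Squarefree D
  swap
  · right
    unfold Squarefree at hDsq
    push Not at hDsq
    obtain ⟨x, hx1, hx2⟩ := hDsq
    exact ⟨x, hx2, fun f hf => by
      rw [sq]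
      exact hx1.trans (hDV f hf)⟩
  left
  by_cases hu : IsUnit h0
  · refine ⟨f0, hf0, ?_⟩
    rw [hh0, squarefree_mul_iff]
    exact ⟨hu.isRelPrime_right, hDsq, hu.squarefree⟩
  obtain ⟨s, hs1, hs2⟩ := UniqueFactorizationMonoid.exists_prime_factors h0 hh00
  -- a member with no common component
  let U : MvPolynomial (Fin 3) K → Submodule K ↥V := fun q =>
    { carrier := {v | D * q ∣ v.1}
      add_mem' := fun {a b} ha hb => by
        show D * q ∣ a.1 + b.1
        exact dvd_add ha hb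
      zero_mem' := dvd_zero _
      smul_mem' := fun c v hv => by
        show D * q ∣ c • v.1
        rw [smul_eq_C_mul]
        exact Dvd.dvd.mul_left hv _ }
  have hU : ∀ (q : MvPolynomial (Fin 3) K) (v : ↥V), v ∈ U q ↔ D * q ∣ v.1 := fun q v => Iff.rfl
  obtain ⟨v, hv⟩ : ∃ v : ↥V, ∀ q ∈ s, v ∉ U q := by
    by_contra hcon
    push Not at hcon
    have h1 : ⊤ ∈ s.toFinset.image U := by
      refine Subspace.top_mem_of_biUnion_eq_univ ?_
      rw [Set.eq_univ_iff_forall]
      intro v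
      obtain ⟨q, hq, hvq⟩ := hcon v
      rw [Set.mem_iUnion₂]
      exact ⟨U q, Finset.mem_image_of_mem U (Multiset.mem_toFinset.2 hq), hvq⟩
    obtain ⟨q, hq, hqt⟩ := Finset.mem_image.1 h1
    have hqp := hs1 q (Multiset.mem_toFinset.1 hq)
    have h2 := hmax (D * q) fun f hf => by
      have h3 : (⟨f, hf⟩ : ↥V) ∈ U q := by
        rw [hqt]
        exact Submodule.mem_top
      exact h3
    rw [totalDegree_mul_of_isDomain hD0 hqp.ne_zero, hDm] at h2
    have h3 : q.totalDegree = 0 := by omega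
    apply hqp.not_isUnit
    rw [totalDegree_eq_zero_iff_eq_C] at h3
    rw [h3]
    refine (isUnit_iff_ne_zero.2 fun h4 => hqp.ne_zero ?_).map C
    rw [h3, h4, C_0]
  obtain ⟨h1, hh1⟩ := hDV v.1 v.2
  have hv0 : v.1 ≠ 0 := by
    intro h
    obtain ⟨p, hp, hpx⟩ := WfDvdMonoid.exists_irreducible_factor hu hh00
    have h3 : p ∣ s.prod := hpx.trans hs2.symm.dvd
    obtain ⟨q, hq, -⟩ := hp.prime.exists_mem_multiset_dvd h3
    apply hv q hq
    rw [hU, h]
    exact dvd_zero _
  have hh10 : h1 ≠ 0 := fun h => hv0 (by rw [hh1, h, mul_zero])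
  have hrel : IsRelPrime h0 h1 := by
    intro x hx0 hx1
    by_contra hxu
    have hxne : x ≠ 0 := by
      rintro rfl
      exact hh00 (zero_dvd_iff.1 hx0)
    obtain ⟨p, hp, hpx⟩ := WfDvdMonoid.exists_irreducible_factor hxu hxne
    have h3 : p ∣ s.prod := (hpx.trans hx0).trans hs2.symm.dvd
    obtain ⟨q, hq, hpq⟩ := hp.prime.exists_mem_multiset_dvd h3
    have h4 : Associated p q := (hp.dvd_irreducible_iff_associated (hs1 q hq).irreducible).1 hpq
    apply hv q hq
    rw [hU, hh1]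
    exact mul_dvd_mul_left D ((h4.symm.dvd.trans hpx).trans hx1)
  have hDh := Pool.Agent.Chud.homog_of_dvd (hV f0 hf0) hf00 (⟨h0, hh0⟩ : D ∣ f0)
  have hh0h := Pool.Agent.Chud.homog_of_dvd (hV f0 hf0) hf00 (⟨D, by rw [hh0]; ring⟩ : h0 ∣ f0)
  have hh1h := Pool.Agent.Chud.homog_of_dvd (hV v.1 v.2) hv0 (⟨D, by rw [hh1]; ring⟩ : h1 ∣ v.1)
  have d0 : D.totalDegree + h0.totalDegree = n := by
    have h2 := hDh.mul hh0h
    rw [← hh0] at h2
    exact h2.inj_right (hV f0 hf0) hf00
  have d1 : D.totalDegree + h1.totalDegree = n := by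
    have h2 := hDh.mul hh1h
    rw [← hh1] at h2
    exact h2.inj_right (hV v.1 v.2) hv0
  have hd : h1.totalDegree = h0.totalDegree := by omega
  rw [hd] at hh1h
  obtain ⟨t, ht1, ht2⟩ := pencil_sq hh0h hh1h hrel hD0
  refine ⟨f0 + t • v.1, V.add_mem hf0 (V.smul_mem t v.2), ?_⟩
  have h5 : f0 + t • v.1 = D * (h0 + C t * h1) := by
    rw [smul_eq_C_mul, hh1]
    conv_lhs => rw [hh0]
    ring
  rw [h5, squarefree_mul_iff]
  exact ⟨ht2, hDsq, ht1⟩

end Pool.Agent.T9h41.SG
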