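import Pool.Agent.T9h41.SG.Grow

set_option autoImplicit false

/-!
# Systems with a reduced member: few leading forms and the dimension
-/

namespace Pool.Agent.T9h41.SG

open MvPolynomial Pool.Agent.W609 Pool.Agent.W609.CR Pool.Agent.TH167.SH Pool.Agent.TH167.TT
  Pool.Agent.TH167.DD Pool.Agent.TH167.T3 Pool.Agent.H248R5 Pool.Agent.H248R6
  Pool.Agent.TH167.CL

/-- Few leading forms bound the dimension. -/
theorem chain {K : Type} [Field K] [CharZero K] {s : ℕ} {P : Fin s → Fin 2 → K}
    (hP : AlgebraicIndependent ℚ (fun ij : Fin s × Fin 2 => P ij.1 ij.2))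
    {w : Fin s → ℕ} {d : ℕ} {k : Fin s} {M : ℕ}
    (hM : Module.finrank K ↥(VS (fun j => aff (P j)) (Function.update w k (M + 1)) d) = 0)
    (hlt : rk P d w k ≤ w k) :
    Module.finrank K ↥(VS (fun j => aff (P j)) w d) ≤ rk P d w k * (M + 1 - w k) := by
  classical
  have key : ∀ n : ℕ, Module.finrank K ↥(VS (fun j => aff (P j)) w d) ≤ n * rk P d w k +
      Module.finrank K ↥(VS (fun j => aff (P j)) (Function.update w k (w k + n)) d) ∧
      rk P d (Function.update w k (w k + n)) k ≤ rk P d w k := by
    intro n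
    induction n with
    | zero =>
      rw [Nat.add_zero, Function.update_eq_self]
      exact ⟨by omega, le_rfl⟩
    | succ n ih =>
      obtain ⟨h1, h2⟩ := ih
      have e1 : Function.update w k (w k + (n + 1)) k = w k + (n + 1) := Function.update_self _ _ _
      have e2 : Function.update w k (w k + n) k = w k + n := Function.update_self _ _ _
      have h3 := rk_step hP (d := d) (w := Function.update w k (w k + (n + 1)))
        (u := Function.update w k (w k + n)) (k := k) (by rw [e1, e2]; omega) (fun i hi => by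
          rw [Function.update_of_ne hi, Function.update_of_ne hi])
      rw [e1] at h3
      have h4 := rk_add P d (Function.update w k (w k + n)) k
      rw [e2, Function.update_idem] at h4
      have h5 : w k + n + 1 = w k + (n + 1) := by omega
      rw [h5] at h4
      have h6 : (n + 1) * rk P d w k = n * rk P d w k + rk P d w k := by ring
      omega
  rcases Nat.lt_or_ge (M + 1) (w k) with h | h
  · have hf : Module.Finite K ↥(VS (fun j => aff (P j)) (Function.update w k (M + 1)) d) :=
      vs_fin _ _ _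
    have h1 : VS (fun j => aff (P j)) w d ≤
        VS (fun j => aff (P j)) (Function.update w k (M + 1)) d := by
      intro f hf
      refine vs_le (fun i => ?_) hf
      by_cases hi : i = k
      · rw [hi, Function.update_self]
        omega
      · rw [Function.update_of_ne hi]
    have h2 := Submodule.finrank_mono h1
    omega
  · obtain ⟨n, hn⟩ : ∃ n, M + 1 = w k + n := ⟨M + 1 - w k, by omega⟩
    have h1 := (key n).1
    rw [← hn, hM] at h1
    have h2 : M + 1 - w k = n := by omega
    rw [h2, mul_comm]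
    omega

/-- Nine generic points and irreducible curves. -/
theorem irr9 {K : Type} [Field K] [CharZero K] {r e : ℕ} {w : Fin (r + 4) → ℕ}
    {S : Finset (Fin (r + 4))} (hS : S.card ≤ 9) {P : Fin (r + 4) → Fin 2 → K}
    (hP : AlgebraicIndependent ℚ (fun ij : Fin (r + 4) × Fin 2 => P ij.1 ij.2))
    {G : MvPolynomial (Fin 3) K} (hG : Irreducible G) (hGe : G.IsHomogeneous e)
    (hord : ∀ j, Ord (aff (P j)) (w j) G) :
    ∑ j ∈ S, w j < 3 * e ∨ (e = 3 ∧ ∑ j ∈ S, w j = 9 ∧ (∀ j, w j ≤ 1) ∧
      (∀ j, j ∉ S → w j = 0) ∧ Module.finrank K ↥(VS (fun j => aff (P j)) w e) = 1) := by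
  classical
  rcases Pool.Agent.TH167.RD.pos9 hS hP hG hGe hord with h1 | ⟨h1, i, hi⟩
  · exact Or.inl h1
  · subst h1
    have h2 : ∀ j, w j ≤ 2 := by
      intro j
      by_cases hij : j = i
      · rw [hij, hi]
        norm_num
      · rcases pair_irr (inj_of_alg hP) hG hGe hord hij with h3 | ⟨h3, -⟩
        · omega
        · omega
    have h3 := (prime9 (S := ∅) (by simp) (fun j _ => h2 j) hP hG hGe hord).1
    have hGm : G ∈ VS (fun j => aff (P j)) w 3 := (mem_VS _ _ _ _).2 ⟨hGe, fun j => (hord j).1⟩
    have hpos := pos_of_mem hGm hG.ne_zero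
    rw [chi_cast] at h3
    have h4 : (3 + 2).choose 2 = 10 := rfl
    rw [h4] at h3
    have h5 : Module.finrank K ↥(VS (fun j => aff (P j)) w 3) + ∑ j, (w j + 1).choose 2 = 10 := by
      omega
    have h6 : ∀ x : ℕ, x ≤ (x + 1).choose 2 := by
      intro x
      rw [Nat.choose_succ_succ' x 1, Nat.choose_one_right]
      omega
    have h7 : ∑ j ∈ S, w j ≤ ∑ j ∈ S, (w j + 1).choose 2 := Finset.sum_le_sum fun j _ => h6 _
    have h8 : ∑ j ∈ S, (w j + 1).choose 2 ≤ ∑ j, (w j + 1).choose 2 :=
      Finset.sum_le_sum_of_subset (Finset.subset_univ S)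
    rcases Nat.lt_or_ge (∑ j ∈ S, w j) 9 with h9 | h9
    · left
      omega
    · right
      have h10 : ∑ j ∈ Finset.univ \ S, (w j + 1).choose 2 = 0 := by
        have := Finset.sum_sdiff (Finset.subset_univ S) (f := fun j => (w j + 1).choose 2)
        omega
      have hout : ∀ j, j ∉ S → w j = 0 := by
        intro j hj
        have h11 := Finset.sum_eq_zero_iff.1 h10 j (Finset.mem_sdiff.2 ⟨Finset.mem_univ _, hj⟩)
        have := h6 (w j)
        omega
      refine ⟨rfl, by omega, fun j => ?_, hout, by omega⟩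
      by_cases hj : j ∈ S
      · by_contra hcon
        have h12 : ∑ j ∈ S, w j < ∑ j ∈ S, (w j + 1).choose 2 :=
          Finset.sum_lt_sum (fun j _ => h6 _) ⟨j, hj, by
            have h13 : w j = 2 := by
              have := h2 j
              omega
            rw [h13]
            decide⟩
        omega
      · rw [hout j hj]
        exact Nat.zero_le _

/-- Nine generic points. -/
theorem nef9 {K : Type} [Field K] [CharZero K] {r : ℕ} {S : Finset (Fin (r + 4))}
    (hS : S.card ≤ 9) {P : Fin (r + 4) → Fin 2 → K}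
    (hP : AlgebraicIndependent ℚ (fun ij : Fin (r + 4) × Fin 2 => P ij.1 ij.2)) :
    ∀ (d : ℕ) (w : Fin (r + 4) → ℕ) (f : MvPolynomial (Fin 3) K), f ≠ 0 → f.IsHomogeneous d →
      (∀ j, Van (aff (P j)) (w j) f) → ∑ j ∈ S, w j ≤ 3 * d := by
  classical
  intro d
  induction d using Nat.strong_induction_on with
  | _ d ih =>
    intro w f hf0 hfd hv
    by_cases hu : IsUnit f
    · have hd : d = 0 := Pool.Agent.TH167.SM.unit_deg hfd hf0 hu
      subst hd
      rw [Finset.sum_eq_zero fun j _ => by
        have := van_le hf0 hfd (hv j)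
        omega]
      exact Nat.zero_le _
    · obtain ⟨G1, hG1, hG1d⟩ := WfDvdMonoid.exists_irreducible_factor hu hf0
      obtain ⟨H, hH⟩ := hG1d
      have hH0 : H ≠ 0 := fun h0 => hf0 (by rw [hH, h0, mul_zero])
      have hG1e := Pool.Agent.Chud.homog_of_dvd hfd hf0 (⟨H, hH⟩ : G1 ∣ f)
      have hHe := Pool.Agent.Chud.homog_of_dvd hfd hf0 (⟨G1, by rw [hH]; ring⟩ : H ∣ f)
      obtain ⟨a, ha⟩ : ∃ a, a = G1.totalDegree := ⟨_, rfl⟩
      obtain ⟨b, hb⟩ : ∃ b, b = H.totalDegree := ⟨_, rfl⟩
      rw [← ha] at hG1e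
      rw [← hb] at hHe
      have ha0 := deg_pos hG1 hG1e
      have hdeg : a + b = d := by
        have h2 := hG1e.mul hHe
        rw [← hH] at h2
        exact h2.inj_right hfd hf0
      choose u hu2 using fun j => exists_ord (p := P j) hG1.ne_zero hG1e
      choose v hv2 using fun j => exists_ord (p := P j) hH0 hHe
      have hw : ∀ j, w j ≤ u j + v j := by
        intro j
        have h2 := ord_mul (hu2 j) (hv2 j)
        rw [← hH] at h2
        by_contra hcon
        push Not at hcon
        exact h2.2 (van_mono (by omega) (hv j))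
      have h1 : ∑ j ∈ S, u j ≤ 3 * a := by
        rcases irr9 hS hP hG1 hG1e hu2 with h2 | ⟨h2, h3, -⟩
        · omega
        · omega
      have h2 := ih b (by omega) v H hH0 hHe (fun j => (hv2 j).1)
      have h3 : ∑ j ∈ S, w j ≤ ∑ j ∈ S, u j + ∑ j ∈ S, v j := by
        rw [← Finset.sum_add_distrib]
        exact Finset.sum_le_sum fun j _ => hw j
      omega

end Pool.Agent.T9h41.SG
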