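import Pool.Agent.T9h41.SG.Spread
import Pool.Agent.N108.ZZ.Mono

set_option autoImplicit false

/-!
# Systems with a reduced member: the leading forms at generic points
-/

namespace Pool.Agent.T9h41.SG

open MvPolynomial Pool.Agent.W609 Pool.Agent.W609.CR Pool.Agent.TH167.SH Pool.Agent.TH167.TT
  Pool.Agent.TH167.DD Pool.Agent.TH167.T3 Pool.Agent.H248R5 Pool.Agent.H248R6
  Pool.Agent.TH167.CL

/-- The dimension of the space of the leading forms at the point `k` of the system. -/
noncomputable def rk {K : Type} [Field K] {s : ℕ} (P : Fin s → Fin 2 → K) (d : ℕ) (w : Fin s → ℕ)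
    (k : Fin s) : ℕ :=
  Module.finrank K ↥(VS (fun j => aff (P j)) w d) -
    Module.finrank K ↥(VS (fun j => aff (P j)) (Function.update w k (w k + 1)) d)

theorem vs_upd_le {K : Type} [Field K] {s : ℕ} (P : Fin s → Fin 2 → K) (d : ℕ) (w : Fin s → ℕ)
    (k : Fin s) : VS (fun j => aff (P j)) (Function.update w k (w k + 1)) d ≤
      VS (fun j => aff (P j)) w d := by
  classical
  intro f hf
  refine vs_le (fun i => ?_) hf
  by_cases hi : i = k
  · rw [hi, Function.update_self]
    omega
  · rw [Function.update_of_ne hi]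

theorem rk_add {K : Type} [Field K] {s : ℕ} (P : Fin s → Fin 2 → K) (d : ℕ) (w : Fin s → ℕ)
    (k : Fin s) : Module.finrank K ↥(VS (fun j => aff (P j)) (Function.update w k (w k + 1)) d) +
      rk P d w k = Module.finrank K ↥(VS (fun j => aff (P j)) w d) := by
  have hf : Module.Finite K ↥(VS (fun j => aff (P j)) w d) := vs_fin _ _ _
  have := Submodule.finrank_mono (vs_upd_le P d w k)
  unfold rk
  omega

/-- The dimension of the leading forms does not decrease if the multiplicities decrease, as long as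
they are not all forms. -/
theorem rk_step {K : Type} [Field K] [CharZero K] {s : ℕ} {P : Fin s → Fin 2 → K}
    (hP : AlgebraicIndependent ℚ (fun ij : Fin s × Fin 2 => P ij.1 ij.2))
    {w u : Fin s → ℕ} {d : ℕ} {k : Fin s} (huk : u k + 1 = w k)
    (hle : ∀ i, i ≠ k → u i ≤ w i) : min (w k) (rk P d w k) ≤ rk P d u k := by
  classical
  let V := VS (fun j => aff (P j)) w d
  have hVf : Module.Finite K ↥V := vs_fin (fun j => aff (P j)) w d
  let Psi : ↥V →ₗ[K] MvPolynomial (Fin 2) K := (lam (w k) (P k)).comp V.subtype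
  obtain ⟨W, hW⟩ := Submodule.exists_isCompl (LinearMap.ker Psi)
  have hker : Module.finrank K ↥(LinearMap.ker Psi) ≤
      Module.finrank K ↥(VS (fun j => aff (P j)) (Function.update w k (w k + 1)) d) := by
    have hmem : ∀ f : ↥(LinearMap.ker Psi),
        (f.1.1 : MvPolynomial (Fin 3) K) ∈ VS (fun j => aff (P j)) (Function.update w k (w k + 1)) d := by
      intro f
      have hf2 : lam (w k) (P k) f.1.1 = 0 := LinearMap.mem_ker.1 f.2
      rw [mem_forms_VS]
      refine back (k := k) (m := w k) (by rw [Function.update_self]) ?_ hf2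
      rw [Function.update_idem, Function.update_eq_self]
      exact mem_forms_VS.1 f.1.2
    let io : ↥(LinearMap.ker Psi) →ₗ[K]
        ↥(VS (fun j => aff (P j)) (Function.update w k (w k + 1)) d) :=
      { toFun := fun f => ⟨f.1.1, hmem f⟩
        map_add' := fun f g => rfl
        map_smul' := fun c f => rfl }
    have hf : Module.Finite K ↥(VS (fun j => aff (P j)) (Function.update w k (w k + 1)) d) :=
      vs_fin _ _ _
    refine LinearMap.finrank_le_finrank_of_injective (f := io) ?_
    intro f g hfg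
    have h5 : (io f).1 = (io g).1 := by rw [hfg]
    exact Subtype.ext (Subtype.ext h5)
  have hdim : Module.finrank K ↥(LinearMap.ker Psi) + Module.finrank K ↥W =
      Module.finrank K ↥V := Submodule.finrank_add_eq_of_isCompl hW
  have hWr : min (w k) (rk P d w k) ≤ Module.finrank K ↥W := by
    have h1 := rk_add P d w k
    have h2 : Module.finrank K ↥V = Module.finrank K ↥(VS (fun j => aff (P j)) w d) := rfl
    have h3 := min_le_right (w k) (rk P d w k)
    omega
  obtain ⟨V0, hV0, hV0r⟩ := exists_sub W hWr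
  have hmap : V0.map V.subtype ≤ VS (fun j => aff (P j)) w d := by
    rintro _ ⟨f, _, rfl⟩
    exact f.2
  have hmr : Module.finrank K ↥(V0.map V.subtype) = min (w k) (rk P d w k) := by
    rw [Submodule.finrank_map_subtype_eq, hV0r]
  have hV0f : Module.Finite K ↥(V0.map V.subtype) := Submodule.finiteDimensional_of_le hmap
  have h1 := grow hP (V0.map V.subtype) hmap hmr (min_le_left _ _) (k := k) (u := u) (by
    rintro _ ⟨f, hf, rfl⟩ h0
    have h2 : f ∈ LinearMap.ker Psi := h0
    have h3 : f ∈ LinearMap.ker Psi ⊓ W := ⟨h2, hV0 hf⟩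
    rw [hW.inf_eq_bot, Submodule.mem_bot] at h3
    rw [h3]
    rfl) huk hle
  have h4 := rk_add P d u k
  omega

/-- The number of the independent conditions of a generic point of multiplicity `m` of a prime
divisor, if the dimension of the space of the tangent cones is `c`. -/
def cn (c : ℕ) : ℕ → ℕ
  | 0 => 0
  | m + 1 => cn c m + min (m + 1) (max 2 c)

theorem rk_ge {K : Type} [Field K] [CharZero K] {s : ℕ} {P : Fin s → Fin 2 → K}
    (hP : AlgebraicIndependent ℚ (fun ij : Fin s × Fin 2 => P ij.1 ij.2))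
    {w : Fin s → ℕ} {d : ℕ} {k : Fin s} : ∀ (n : ℕ) (u : Fin s → ℕ), u k + (n + 1) = w k →
    (∀ i, i ≠ k → u i ≤ w i) → min (u k + 1) (rk P d w k) ≤ rk P d u k := by
  classical
  intro n
  induction n with
  | zero =>
    intro u hu hle
    have h1 := rk_step hP (d := d) hu hle
    rwa [← hu] at h1
  | succ n ih =>
    intro u hu hle
    obtain ⟨v, hv⟩ : ∃ v, v = Function.update u k (u k + 1) := ⟨_, rfl⟩
    have hvk : v k = u k + 1 := by rw [hv, Function.update_self]
    have hvi : ∀ i, i ≠ k → v i = u i := fun i hi => by rw [hv, Function.update_of_ne hi]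
    have h1 := ih v (by rw [hvk]; omega) (fun i hi => by rw [hvi i hi]; exact hle i hi)
    have h2 := rk_step hP (d := d) (w := v) (u := u) (k := k) hvk.symm (fun i hi => by rw [hvi i hi])
    rw [hvk] at h1 h2
    omega

/-- One step. -/
theorem step_one {K : Type} [Field K] [CharZero K] [IsAlgClosed K] {s d : ℕ}
    {P : Fin s → Fin 2 → K}
    (hP : AlgebraicIndependent ℚ (fun ij : Fin s × Fin 2 => P ij.1 ij.2))
    {G : MvPolynomial (Fin 3) K} (hG : Squarefree G) {w u : Fin s → ℕ}
    (hGm : G ∈ VS (fun j => aff (P j)) w d) {k : Fin s} {m : ℕ} (hk : u k = m)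
    (hkw : m + 1 ≤ w k) (hle : ∀ i, u i ≤ w i) :
    Module.finrank K ↥(VS (fun j => aff (P j)) (Function.update u k (m + 1)) d) +
      min (m + 1) (max 2 (rk P d w k)) ≤ Module.finrank K ↥(VS (fun j => aff (P j)) u d) := by
  classical
  obtain ⟨v, hv⟩ : ∃ v, v = Function.update u k (m + 1) := ⟨_, rfl⟩
  have hvk : v k = m + 1 := by rw [hv, Function.update_self]
  have hvi : ∀ i, i ≠ k → v i = u i := fun i hi => by rw [hv, Function.update_of_ne hi]
  have h1 := rk_ge hP (d := d) (w := w) (k := k) (w k - (m + 1)) u (by omega) fun i _ => hle i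
  have h2 := rk_add P d u k
  rw [hk, ← hv] at h2
  rw [hk] at h1
  have hGv : G ∈ VS (fun j => aff (P j)) v d := vs_le (fun i => by
    by_cases hi : i = k
    · rw [hi, hvk]
      exact hkw
    · rw [hvi i hi]
      exact hle i) hGm
  have h3 := spread_sq (fun K0 _ _ P0 hP0 => gen_eq hP hP0 _ _) hGv hG (Finset.univ \ {k}) hP
  rw [nm_compl, al_compl, Finset.sum_singleton, hvk] at h3
  have h4 : dr {k} v = u := by
    funext i
    unfold dr
    by_cases hi : i = k
    · rw [hi, if_pos (Finset.mem_singleton_self _), hvk, hk, Nat.add_sub_cancel]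
    · rw [if_neg (by rwa [Finset.mem_singleton]), hvi i hi]
  rw [h4] at h3
  rw [← hv]
  omega

/-- **The conditions of the points of a prime divisor.** -/
theorem main_ineq {K : Type} [Field K] [CharZero K] [IsAlgClosed K] {s d : ℕ}
    {P : Fin s → Fin 2 → K}
    (hP : AlgebraicIndependent ℚ (fun ij : Fin s × Fin 2 => P ij.1 ij.2))
    {G : MvPolynomial (Fin 3) K} (hG : Squarefree G) {w : Fin s → ℕ}
    (hGm : G ∈ VS (fun j => aff (P j)) w d) : ∀ (N : ℕ) (u : Fin s → ℕ), (∀ i, u i ≤ w i) →
      ∑ i, w i ≤ ∑ i, u i + N →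
      Module.finrank K ↥(VS (fun j => aff (P j)) w d) + ∑ i, cn (rk P d w i) (w i) ≤
        Module.finrank K ↥(VS (fun j => aff (P j)) u d) + ∑ i, cn (rk P d w i) (u i) := by
  classical
  intro N
  induction N with
  | zero =>
    intro u hle hN
    have h1 : u = w := by
      funext i
      by_contra hne
      have h2 : ∑ i, u i < ∑ i, w i := Finset.sum_lt_sum (fun j _ => hle j)
        ⟨i, Finset.mem_univ _, lt_of_le_of_ne (hle i) hne⟩
      omega
    rw [h1]
  | succ N ih =>
    intro u hle hN
    by_cases h1 : u = w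
    · rw [h1]
    obtain ⟨k, hk⟩ := Function.ne_iff.1 h1
    have hk' : u k < w k := lt_of_le_of_ne (hle k) hk
    obtain ⟨m, hm⟩ : ∃ m, u k = m := ⟨_, rfl⟩
    have h2 := step_one hP hG hGm hm (by omega) hle
    have hs : ∀ f : Fin s → ℕ → ℕ, ∑ i, f i (Function.update u k (m + 1) i) + f k m =
        ∑ i, f i (u i) + f k (m + 1) := by
      intro f
      rw [← Finset.add_sum_erase _ _ (Finset.mem_univ k),
        ← Finset.add_sum_erase Finset.univ (fun i => f i (u i)) (Finset.mem_univ k)]
      have h4 : ∑ i ∈ Finset.univ.erase k, f i (Function.update u k (m + 1) i) =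
          ∑ i ∈ Finset.univ.erase k, f i (u i) :=
        Finset.sum_congr rfl fun i hi => by rw [Function.update_of_ne (Finset.ne_of_mem_erase hi)]
      rw [h4, Function.update_self, hm]
      omega
    have h3 := ih (Function.update u k (m + 1)) (fun i => by
      by_cases hi : i = k
      · rw [hi, Function.update_self]
        omega
      · rw [Function.update_of_ne hi]
        exact hle i) (by
        have := hs fun _ x => x
        omega)
    have h4 := hs fun i x => cn (rk P d w i) x
    have h5 : cn (rk P d w k) (m + 1) = cn (rk P d w k) m + min (m + 1) (max 2 (rk P d w k)) := rfl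
    omega

theorem cn_choose (c m : ℕ) : (m + 1).choose 2 = cn c m + (m + 1 - max 2 c).choose 2 := by
  induction m with
  | zero =>
    have h1 : (0 + 1 - max 2 c).choose 2 = 0 := Nat.choose_eq_zero_of_lt (by omega)
    rw [h1]
    rfl
  | succ m ih =>
    have h1 : (m + 1 + 1).choose 2 = (m + 1).choose 1 + (m + 1).choose 2 := Nat.choose_succ_succ' _ _
    rw [Nat.choose_one_right] at h1
    have h2 : cn c (m + 1) = cn c m + min (m + 1) (max 2 c) := rfl
    rcases Nat.lt_or_ge (m + 1) (max 2 c) with h | h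
    · have h3 : (m + 1 + 1 - max 2 c).choose 2 = 0 := Nat.choose_eq_zero_of_lt (by omega)
      have h4 : (m + 1 - max 2 c).choose 2 = 0 := Nat.choose_eq_zero_of_lt (by omega)
      omega
    · obtain ⟨x, hx⟩ : ∃ x, m + 1 - max 2 c = x := ⟨_, rfl⟩
      have h3 : m + 1 + 1 - max 2 c = x + 1 := by omega
      have h4 : (x + 1).choose 2 = x.choose 1 + x.choose 2 := Nat.choose_succ_succ' _ _
      rw [Nat.choose_one_right] at h4
      rw [h3]
      rw [hx] at ih
      omega

theorem cn_sum (c m : ℕ) : ∀ n, n ≤ m → cn c m = cn c n + ∑ j ∈ Finset.Ioc n m, min j (max 2 c) := by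
  induction m with
  | zero =>
    intro n hn
    have : n = 0 := by omega
    rw [this]
    simp
  | succ m ih =>
    intro n hn
    rcases Nat.eq_or_lt_of_le hn with h | h
    · rw [h]
      simp
    · rw [Finset.sum_Ioc_succ_top (by omega), ← add_assoc, ← ih n (by omega)]
      rfl

/-- The superabundance. -/
noncomputable def sp {K : Type} [Field K] {s : ℕ} (P : Fin s → Fin 2 → K) (d : ℕ) (w : Fin s → ℕ) :
    ℤ := (Module.finrank K ↥(VS (fun j => aff (P j)) w d) : ℤ) - chi d w

theorem sp_mono {K : Type} [Field K] {s : ℕ} (P : Fin s → Fin 2 → K) (d : ℕ) {w w' : Fin s → ℕ}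
    (h : ∀ j, w j ≤ w' j) : sp P d w ≤ sp P d w' := by
  have h1 := Pool.Agent.N108.ZZ.mono P d _ w w' h rfl
  unfold sp
  rw [chi_cast, chi_cast]
  have h2 : ((Module.finrank K ↥(VS (fun j => aff (P j)) w d) + ∑ j, (w j + 1).choose 2 : ℕ) : ℤ) ≤
      ((Module.finrank K ↥(VS (fun j => aff (P j)) w' d) + ∑ j, (w' j + 1).choose 2 : ℕ) : ℤ) := by
    exact_mod_cast h1
  rw [Nat.cast_add, Nat.cast_add] at h2
  linarith

theorem sp_nonneg {K : Type} [Field K] {s : ℕ} (P : Fin s → Fin 2 → K) (d : ℕ) (w : Fin s → ℕ) :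
    0 ≤ sp P d w := by
  have := chi_le_dim P d w
  unfold sp
  linarith

/-- The multiplicities at the points of `S`. -/
def rs {s : ℕ} (S : Finset (Fin s)) (w : Fin s → ℕ) : Fin s → ℕ := fun j => if j ∈ S then w j else 0

theorem rs_le {s : ℕ} (S : Finset (Fin s)) (w : Fin s → ℕ) (j : Fin s) : rs S w j ≤ w j := by
  unfold rs
  split_ifs
  · exact le_rfl
  · exact Nat.zero_le _

theorem chi_rs {s : ℕ} (S : Finset (Fin s)) (w : Fin s → ℕ) (d : ℕ) :
    chi d (rs S w) = ((d + 2).choose 2 : ℤ) - ((∑ j ∈ S, (w j + 1).choose 2 : ℕ) : ℤ) := by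
  classical
  rw [chi_cast]
  congr 2
  rw [← Finset.sum_filter_add_sum_filter_not Finset.univ (fun j => j ∈ S)
    (fun j => (rs S w j + 1).choose 2)]
  have h1 : ∑ j ∈ Finset.univ.filter (fun j => j ∉ S), (rs S w j + 1).choose 2 = 0 := by
    refine Finset.sum_eq_zero fun j hj => ?_
    unfold rs
    rw [if_neg (Finset.mem_filter.1 hj).2]
    rfl
  have h2 : Finset.univ.filter (fun j => j ∈ S) = S := by
    ext j
    simp
  rw [h1, add_zero, h2]
  refine Finset.sum_congr rfl fun j hj => ?_
  unfold rs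
  rw [if_pos hj]

/-- Forgetting points. -/
theorem sp_le2 {K : Type} [Field K] [CharZero K] [IsAlgClosed K] {s e : ℕ}
    {w : Fin s → ℕ} {P : Fin s → Fin 2 → K}
    (hP : AlgebraicIndependent ℚ (fun ij : Fin s × Fin 2 => P ij.1 ij.2))
    {G : MvPolynomial (Fin 3) K} (hG : Squarefree G)
    (hGm : G ∈ VS (fun j => aff (P j)) w e) (S : Finset (Fin s)) :
    sp P e w ≤ sp P e (rs S w) +
      ((∑ j, (if j ∈ S then 0 else (w j + 1 - max 2 (rk P e w j)).choose 2) : ℕ) : ℤ) := by
  classical
  have h1 := main_ineq hP hG hGm (∑ i, w i) (rs S w) (rs_le S w) (by omega)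
  unfold sp
  rw [chi_cast, chi_cast]
  have h3 : ∑ j, (w j + 1).choose 2 = ∑ j, cn (rk P e w j) (w j) +
      ∑ j, (w j + 1 - max 2 (rk P e w j)).choose 2 := by
    rw [← Finset.sum_add_distrib]
    exact Finset.sum_congr rfl fun j _ => cn_choose _ _
  have h4 : ∑ j, (rs S w j + 1).choose 2 = ∑ j, cn (rk P e w j) (rs S w j) +
      ∑ j, (rs S w j + 1 - max 2 (rk P e w j)).choose 2 := by
    rw [← Finset.sum_add_distrib]
    exact Finset.sum_congr rfl fun j _ => cn_choose _ _
  have h5 : ∑ j, (w j + 1 - max 2 (rk P e w j)).choose 2 =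
      ∑ j, (rs S w j + 1 - max 2 (rk P e w j)).choose 2 +
        ∑ j, (if j ∈ S then 0 else (w j + 1 - max 2 (rk P e w j)).choose 2) := by
    rw [← Finset.sum_add_distrib]
    refine Finset.sum_congr rfl fun j _ => ?_
    unfold rs
    by_cases hj : j ∈ S
    · rw [if_pos hj, if_pos hj, add_zero]
    · rw [if_neg hj, if_neg hj]
      have : (0 + 1 - max 2 (rk P e w j)).choose 2 = 0 := Nat.choose_eq_zero_of_lt (by omega)
      rw [this, zero_add]
  omega

end Pool.Agent.T9h41.SG
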