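import Pool.Agent.T9h41.SG.Adj
import Pool.Agent.T9h41.SG.BertSq

set_option autoImplicit false

/-!
# Systems with a reduced member: the main theorem
-/

namespace Pool.Agent.T9h41.SG

open MvPolynomial Pool.Agent.W609 Pool.Agent.W609.CR Pool.Agent.TH167.SH Pool.Agent.TH167.TT
  Pool.Agent.TH167.DD Pool.Agent.TH167.T3 Pool.Agent.H248R5 Pool.Agent.H248R6
  Pool.Agent.W641.CR Pool.Agent.TH167.SM Pool.Agent.TH167.RD

/-- A system with a reduced member at special points with the generic dimension has a reduced member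
at generic points. -/
theorem sq_generic {K : Type} [Field K] [CharZero K] [IsAlgClosed K] {s : ℕ}
    {P : Fin s → Fin 2 → K} {w : Fin s → ℕ} {d : ℕ}
    (hgen : ∀ (K0 : Type) [Field K0] [CharZero K0] (P0 : Fin s → Fin 2 → K0),
      AlgebraicIndependent ℚ (fun ij : Fin s × Fin 2 => P0 ij.1 ij.2) →
      Module.finrank K ↥(VS (fun j => aff (P j)) w d) =
        Module.finrank K0 ↥(VS (fun j => aff (P0 j)) w d))
    {f0 : MvPolynomial (Fin 3) K} (hf0 : f0 ∈ VS (fun j => aff (P j)) w d) (hsq0 : Squarefree f0)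
    : ∃ (L : Type) (_ : Field L) (_ : CharZero L) (_ : IsAlgClosed L) (A : Fin s → Fin 2 → L)
      (G : MvPolynomial (Fin 3) L),
      AlgebraicIndependent ℚ (fun ij : Fin s × Fin 2 => A ij.1 ij.2) ∧
      G ∈ VS (fun j => aff (A j)) w d ∧ Squarefree G := by
  classical
  obtain ⟨f, hf, hsq, hX⟩ := no_X2 hf0 hsq0
  have hfm := (mem_VS _ _ _ _).1 hf
  have hfne : f ≠ 0 := hsq.ne_zero
  have hfin := vs_fin (fun j => aff (P j)) w d
  have hpos := pos_of_mem hf hfne
  obtain ⟨n, hn⟩ : ∃ n, Module.finrank K ↥(VS (fun j => aff (P j)) w d) = n + 1 :=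
    ⟨Module.finrank K ↥(VS (fun j => aff (P j)) w d) - 1, by omega⟩
  -- special points
  obtain ⟨Q0, hQ0, hQ1⟩ := pick_sq hsq hfm.1 hX n (VS (fun j => aff (P j)) w d)
    (fun g hg => ((mem_VS _ _ _ _).1 hg).1) hf hn
  have hmem : ∀ g : MvPolynomial (Fin 3) K, g ∈ VS (fun j => aff (PPt P Q0 j))
      (wwt w (fun _ : Fin n => 1)) d ↔
      g ∈ VS (fun j => aff (P j)) w d ∧ ∀ k, eval (aff (Q0 k)) g = 0 := by
    intro g
    rw [mem_PPt]
    exact and_congr Iff.rfl (forall_congr' fun k => Pool.Agent.TH167.TT.van_one)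
  have hfs := (hmem f).2 ⟨hf, hQ0⟩
  have h1s : Module.finrank K ↥(VS (fun j => aff (PPt P Q0 j)) (wwt w (fun _ : Fin n => 1)) d) =
      1 := by
    refine (finrank_eq_one_iff_of_nonzero' ⟨f, hfs⟩
      (fun h => hfne (congrArg Subtype.val h))).2 fun g => ?_
    obtain ⟨g1, g2⟩ := (hmem g.1).1 g.2
    obtain ⟨c, hc⟩ := hQ1 g.1 g1 g2
    exact ⟨c, Subtype.ext hc⟩
  -- generic points
  obtain ⟨L, i1, i2, i3, R, hR⟩ := exists_closed (s + n)
  obtain ⟨A, hA⟩ : ∃ A : Fin s → Fin 2 → L, A = fun i => R (finSumFinEquiv (Sum.inl i)) :=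
    ⟨_, rfl⟩
  obtain ⟨B, hB⟩ : ∃ B : Fin n → Fin 2 → L, B = fun k => R (finSumFinEquiv (Sum.inr k)) :=
    ⟨_, rfl⟩
  have hRAB : R = PPt A B := by
    funext j
    obtain ⟨x, rfl⟩ := finSumFinEquiv.surjective j
    rcases x with i | k
    · rw [PPt_inl, hA]
      rfl
    · rw [PPt_inr, hB]
  have hAg : AlgebraicIndependent ℚ (fun ij : Fin s × Fin 2 => A ij.1 ij.2) := by
    have h4 := hR.comp (fun ij : Fin s × Fin 2 =>
      ((finSumFinEquiv (Sum.inl ij.1) : Fin (s + n)), ij.2)) (by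
      rintro ⟨a, b⟩ ⟨a', b'⟩ h
      rw [Prod.mk.injEq] at h
      exact Prod.ext (Sum.inl.inj (finSumFinEquiv.injective h.1)) h.2)
    rw [hA]
    exact h4
  have hAn : Module.finrank L ↥(VS (fun j => aff (A j)) w d) = n + 1 := by
    rw [← hgen L A hAg, hn]
  have hmemR : ∀ (u : Fin s → ℕ) (g : MvPolynomial (Fin 3) L), g ∈ VS (fun j => aff (R j))
      (wwt u (fun _ : Fin n => 1)) d ↔
      g ∈ VS (fun j => aff (A j)) u d ∧ ∀ k : Fin n, eval (aff (B k)) g = 0 := by
    intro u g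
    have h5 := mem_PPt A B u (fun _ : Fin n => 1) d g
    rw [← hRAB] at h5
    rw [h5]
    exact and_congr Iff.rfl (forall_congr' fun k => Pool.Agent.TH167.TT.van_one)
  have hfinA := vs_fin (fun j => aff (A j)) w d
  obtain ⟨φ, hφ⟩ : ∃ φ : ↥(VS (fun j => aff (A j)) w d) →ₗ[L] (Fin n → L), ∀ g k,
      φ g k = eval (aff (B k)) (g : MvPolynomial (Fin 3) L) :=
    ⟨LinearMap.pi fun k : Fin n =>
      (MvPolynomial.aeval (aff (B k)) :
        MvPolynomial (Fin 3) L →ₐ[L] L).toLinearMap.comp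
          (VS (fun j => aff (A j)) w d).subtype, fun g k => by
        show aeval (aff (B k)) (g : MvPolynomial (Fin 3) L) = _
        rw [MvPolynomial.aeval_eq_eval]⟩
  obtain ⟨G, hGm, hG0⟩ : ∃ G ∈ VS (fun j => aff (R j)) (wwt w (fun _ : Fin n => 1)) d,
      G ≠ 0 := by
    have h5 : LinearMap.ker φ ≠ ⊥ := LinearMap.ker_ne_bot_of_finrank_lt (by
      rw [hAn, Module.finrank_fintype_fun_eq_card, Fintype.card_fin]
      omega)
    obtain ⟨g, hg, hg0⟩ := (Submodule.ne_bot_iff _).1 h5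
    refine ⟨g.1, (hmemR w g.1).2 ⟨g.2, fun k => ?_⟩, fun h => hg0 (Subtype.ext h)⟩
    have h6 := congrFun (LinearMap.mem_ker.1 hg) k
    rw [hφ] at h6
    exact h6
  have h1 : Module.finrank L ↥(VS (fun j => aff (R j)) (wwt w (fun _ : Fin n => 1)) d) = 1 := by
    refine le_antisymm ?_ (pos_of_mem hGm hG0)
    exact (semi hR (PPt P Q0) (wwt w (fun _ : Fin n => 1)) d).trans h1s.le
  have hGsq : Squarefree G := sq_of_special hR h1s hfs hfne hsq hGm hG0
  exact ⟨L, i1, i2, i3, A, G, hAg, ((hmemR w G).1 hGm).1, hGsq⟩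

/-- The superabundance and the leading forms. -/
theorem sp_cone {K : Type} [Field K] [CharZero K] [IsAlgClosed K] {r e : ℕ}
    {S : Finset (Fin (r + 4))} (hS : S.card ≤ 9) {w : Fin (r + 4) → ℕ}
    {P : Fin (r + 4) → Fin 2 → K}
    (hP : AlgebraicIndependent ℚ (fun ij : Fin (r + 4) × Fin 2 => P ij.1 ij.2))
    {G : MvPolynomial (Fin 3) K} (hG : Squarefree G) (hGm : G ∈ VS (fun j => aff (P j)) w e) :
    sp P e w ≤ ((∑ j, (if j ∈ S then 0 else w j - max 2 (rk P e w j)) : ℕ) : ℤ) := by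
  classical
  obtain ⟨F, hF, hFsq, hX⟩ := no_X2 hGm hG
  have hFm := (mem_VS _ _ _ _).1 hF
  choose w' hw' using fun j => exists_ord (p := P j) hFsq.ne_zero hFm.1
  have hle : ∀ j, w j ≤ w' j := by
    intro j
    by_contra hcon
    push Not at hcon
    exact (hw' j).2 (van_mono (by omega) (hFm.2 j))
  have h1 := adj9 hS hP hFsq hX hFm.1 hw'
  have h2 := sp_mono P e (w := al S w) (w' := al S w') (fun j => by
    have := hle j
    unfold al
    split_ifs <;> omega)
  have h3 : sp P e (al S w) ≤ 0 := by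
    refine h2.trans ?_
    unfold sp
    linarith
  have h4 := main_ineq hP hFsq hF (∑ i, w i) (al S w) (al_le S w) (by omega)
  unfold sp at h3 ⊢
  rw [chi_cast] at h3 ⊢
  have h5 : ∑ j, (w j + 1).choose 2 = ∑ j, (al S w j + 1).choose 2 +
      ∑ j, (if j ∈ S then 0 else w j) := by
    rw [← Finset.sum_add_distrib]
    refine Finset.sum_congr rfl fun j _ => ?_
    unfold al
    split_ifs
    · rfl
    · exact ch_pred (w j)
  have h6 : ∑ i, cn (rk P e w i) (w i) + ∑ j, (if j ∈ S then 0 else w j - max 2 (rk P e w j)) =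
      ∑ i, cn (rk P e w i) (al S w i) + ∑ j, (if j ∈ S then 0 else w j) := by
    rw [← Finset.sum_add_distrib, ← Finset.sum_add_distrib]
    refine Finset.sum_congr rfl fun j _ => ?_
    unfold al
    split_ifs
    · rfl
    · rcases Nat.eq_zero_or_pos (w j) with h | h
      · rw [h]
        simp
      · obtain ⟨x, hx⟩ : ∃ x, w j = x + 1 := ⟨w j - 1, by omega⟩
        rw [hx, Nat.add_sub_cancel]
        show cn (rk P e w j) x + min (x + 1) (max 2 (rk P e w j)) + _ = _
        omega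
  omega

/-- The finite set of the vectors of multiplicities which are used. -/
def box {s : ℕ} (d : ℕ) (w : Fin s → ℕ) : Finset (Fin s → ℕ) :=
  Fintype.piFinset fun i => Finset.range (w i + d + 2)

theorem mem_box {s : ℕ} {d : ℕ} {w u : Fin s → ℕ} : u ∈ box d w ↔ ∀ i, u i < w i + d + 2 := by
  unfold box
  rw [Fintype.mem_piFinset]
  exact forall_congr' fun i => Finset.mem_range

/-- The dimensions are the generic ones on an open set. -/
theorem open_box {s : ℕ} (w : Fin s → ℕ) (d : ℕ) :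
    ∃ F : MvPolynomial (Fin s × Fin 2) ℚ, F ≠ 0 ∧
      ∀ (K : Type) [Field K] [CharZero K] (P : Fin s → Fin 2 → K), evP P F ≠ 0 →
        ∀ (K0 : Type) [Field K0] [CharZero K0] (P0 : Fin s → Fin 2 → K0),
          AlgebraicIndependent ℚ (fun ij : Fin s × Fin 2 => P0 ij.1 ij.2) → ∀ u ∈ box d w,
          Module.finrank K ↥(VS (fun j => aff (P j)) u d) =
            Module.finrank K0 ↥(VS (fun j => aff (P0 j)) u d) := by
  classical
  choose F hF0 hF using fun u : Fin s → ℕ => open_dim u d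
  refine ⟨∏ u ∈ box d w, F u, Finset.prod_ne_zero_iff.2 fun u _ => hF0 u, ?_⟩
  intro K _ _ P hP K0 _ _ P0 hP0 u hu
  rw [map_prod] at hP
  exact hF u K P (Finset.prod_ne_zero_iff.1 hP u hu) K0 P0 hP0

/-- The theorem at general points. -/
theorem main_all {K : Type} [Field K] [CharZero K] [IsAlgClosed K] {r d : ℕ}
    {w : Fin (r + 4) → ℕ} {P : Fin (r + 4) → Fin 2 → K}
    (hgen : ∀ (K0 : Type) [Field K0] [CharZero K0] (P0 : Fin (r + 4) → Fin 2 → K0),
      AlgebraicIndependent ℚ (fun ij : Fin (r + 4) × Fin 2 => P0 ij.1 ij.2) → ∀ u ∈ box d w,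
      Module.finrank K ↥(VS (fun j => aff (P j)) u d) =
        Module.finrank K0 ↥(VS (fun j => aff (P0 j)) u d))
    {f : MvPolynomial (Fin 3) K} (hf : f ∈ VS (fun j => aff (P j)) w d) (hsq : Squarefree f) :
    (∀ u : Fin (r + 4) → ℕ, (∀ i, u i ≤ w i) →
      Module.finrank K ↥(VS (fun j => aff (P j)) w d) +
        ∑ i, ∑ j ∈ Finset.Ioc (u i) (w i), min j (max 2 (rk P d w i)) ≤
        Module.finrank K ↥(VS (fun j => aff (P j)) u d)) ∧
    (∀ S : Finset (Fin (r + 4)), sp P d (rs S w) ≤ sp P d w ∧ sp P d w ≤ sp P d (rs S w) +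
      ((∑ j, (if j ∈ S then 0 else (w j + 1 - max 2 (rk P d w j)).choose 2) : ℕ) : ℤ)) ∧
    (∀ S : Finset (Fin (r + 4)), S.card ≤ 9 →
      sp P d w ≤ ((∑ j, (if j ∈ S then 0 else w j - max 2 (rk P d w j)) : ℕ) : ℤ)) ∧
    (∀ (k : Fin (r + 4)) (M : ℕ),
      Module.finrank K ↥(VS (fun j => aff (P j)) (Function.update w k (M + 1)) d) = 0 →
      rk P d w k ≤ w k →
      Module.finrank K ↥(VS (fun j => aff (P j)) w d) ≤ rk P d w k * (M + 1 - w k)) := by
  classical
  have hwb : w ∈ box d w := mem_box.2 fun i => by omega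
  obtain ⟨L, i1, i2, i3, A, G, hA, hG, hGsq⟩ := sq_generic (P := P) (w := w) (d := d)
    (fun K0 _ _ P0 hP0 => hgen K0 P0 hP0 w hwb) hf hsq
  have hdim : ∀ u, (∀ i, u i < w i + d + 2) → Module.finrank K ↥(VS (fun j => aff (P j)) u d) =
      Module.finrank L ↥(VS (fun j => aff (A j)) u d) :=
    fun u hu => hgen L A hA u (mem_box.2 hu)
  have hup : ∀ k M, M ≤ w k + d → Module.finrank K
      ↥(VS (fun j => aff (P j)) (Function.update w k (M + 1)) d) =
      Module.finrank L ↥(VS (fun j => aff (A j)) (Function.update w k (M + 1)) d) := by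
    intro k M hM
    refine hdim _ fun i => ?_
    by_cases hi : i = k
    · rw [hi, Function.update_self]
      omega
    · rw [Function.update_of_ne hi]
      omega
  have hw0 := hdim w fun i => by omega
  have hrk : ∀ k, rk P d w k = rk A d w k := by
    intro k
    unfold rk
    rw [hw0, hup k (w k) (by omega)]
  have hsp : ∀ u, (∀ i, u i ≤ w i) → sp P d u = sp A d u := by
    intro u hu
    unfold sp
    rw [hdim u fun i => by
      have := hu i
      omega]
  simp only [hrk]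
  refine ⟨fun u hu => ?_, fun S => ?_, fun S hS => ?_, fun k M hM hk => ?_⟩
  · have h1 := main_ineq hA hGsq hG (∑ i, w i) u hu (by omega)
    have h5 : ∑ i, cn (rk A d w i) (w i) = ∑ i, cn (rk A d w i) (u i) +
        ∑ i, ∑ j ∈ Finset.Ioc (u i) (w i), min j (max 2 (rk A d w i)) := by
      rw [← Finset.sum_add_distrib]
      exact Finset.sum_congr rfl fun i _ => cn_sum _ _ _ (hu i)
    rw [hw0, hdim u fun i => by
      have := hu i
      omega]
    omega
  · rw [hsp w fun _ => le_rfl, hsp (rs S w) (rs_le S w)]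
    exact ⟨sp_mono A d (rs_le S w), sp_le2 hA hGsq hG S⟩
  · rw [hsp w fun _ => le_rfl]
    exact sp_cone hS hA hGsq hG
  · rw [hw0]
    rcases Nat.lt_or_ge (w k + d) M with h | h
    · refine (chain hA (k := k) (M := w k + d) ?_ hk).trans (Nat.mul_le_mul_left _ (by omega))
      by_contra hne
      obtain ⟨g, hg, hg0⟩ := exists_mem (Nat.pos_of_ne_zero hne)
      have h2 := ((mem_VS _ _ _ _).1 hg).2 k
      rw [Function.update_self] at h2
      have h3 := van_le hg0 ((mem_VS _ _ _ _).1 hg).1 h2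
      omega
    · rw [hup k M h] at hM
      exact chain hA hM hk

end Pool.Agent.T9h41.SG
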