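import Pool.Agent.T9h41.SG.Chain

set_option autoImplicit false

/-!
# The theorem of Riemann and Roch for classes of large degree on a prime divisor
-/

namespace Pool.Agent.T9h41.SG

open MvPolynomial Pool.Agent.W609 Pool.Agent.W609.CR Pool.Agent.TH167.SH Pool.Agent.TH167.TT
  Pool.Agent.TH167.DD Pool.Agent.TH167.T3 Pool.Agent.H248R5

/-- Prime divisors of degree at least two. -/
theorem rr_two {K : Type} [Field K] [CharZero K] [IsAlgClosed K] {s : ℕ}
    {G : MvPolynomial (Fin 3) K} {e : ℕ} (hG : Irreducible G) (hGe : G.IsHomogeneous e)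
    (he : 2 ≤ e) {P : Fin s → Fin 2 → K} (hP : Function.Injective P) {w v : Fin s → ℕ}
    (hw : ∀ i, Ord (aff (P i)) (w i) G) {a : ℕ}
    (hpos : e * e + ∑ j, w j * (v j + 1) < e * (a + 3) + ∑ j, w j * w j)
    (Z : Submodule K (MvPolynomial (Fin 3) K)) [Module.Finite K ↥Z]
    (hZ : ∀ f ∈ VS (fun j => aff (P j)) v a, G ∣ f → f ∈ Z) :
    2 * Module.finrank K ↥(VS (fun j => aff (P j)) v a) + e * e + 2 * ∑ j, w j * v j +
      ∑ j, w j ≤ 2 * Module.finrank K ↥Z + 2 * (a * e) + 3 * e + ∑ j, w j * w j := by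
  classical
  have hG0 := hG.ne_zero
  obtain ⟨N, hN⟩ : ∃ N, N = a + e + ∑ j, w j * (v j + 1) + 5 := ⟨_, rfl⟩
  obtain ⟨p1, hp1, hp1P⟩ : ∃ p1 : Fin 2 → K, eval (aff p1) G ≠ 0 ∧ ∀ j, P j ≠ p1 := by
    obtain ⟨H, hH0, hHh, hHP⟩ : ∃ H : MvPolynomial (Fin 3) K, H ≠ 0 ∧
        H.IsHomogeneous H.totalDegree ∧ ∀ j, eval (aff (P j)) H = 0 := by
      refine ⟨∏ j, mf 0 (P j), Finset.prod_ne_zero_iff.2 fun j _ => mf_ne 0 _, ?_, fun j => ?_⟩
      · have h1 : (∏ j, mf 0 (P j)).IsHomogeneous (∑ j : Fin s, 1) :=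
          IsHomogeneous.prod _ _ _ fun j _ => mf_hom 0 _
        have h2 := h1.totalDegree (Finset.prod_ne_zero_iff.2 fun j _ => mf_ne 0 _)
        rwa [← h2] at h1
      · rw [map_prod]
        exact Finset.prod_eq_zero (Finset.mem_univ j) (by rw [eval_mf, sub_self])
    obtain ⟨p1, hp1⟩ := Pool.Agent.TH167.TT.exists_pt (hGe.mul hHh) (mul_ne_zero hG0 hH0)
    rw [map_mul] at hp1
    refine ⟨p1, left_ne_zero_of_mul hp1, fun j h => ?_⟩
    apply right_ne_zero_of_mul hp1
    rw [← h]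
    exact hHP j
  let P1 : Fin (s + 1) → Fin 2 → K := Fin.cons p1 P
  let w' : Fin (s + 1) → ℕ := Fin.cons 0 w
  let r' : Fin (s + 1) → ℕ := Fin.cons N fun j => v j + 1
  have hP1 : Function.Injective P1 := by
    rw [Fin.cons_injective_iff]
    refine ⟨?_, hP⟩
    rintro ⟨j, hj⟩
    exact hp1P j hj
  have hw1 : ∀ i, Ord (aff (P1 i)) (w' i) G := by
    intro i
    refine Fin.cases ?_ (fun j => ?_) i
    · show Ord (aff p1) 0 G
      refine ⟨van_zero _ _, fun h => hp1 ?_⟩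
      exact van_one'.1 h
    · exact hw j
  obtain ⟨Ls, Q, hC, hlen⟩ := exists_cfg hG hGe he hP1 hw1 _ r' rfl
  obtain ⟨k, hk⟩ : ∃ k, k = Ls.length := ⟨_, rfl⟩
  have hk2 : k = N + ∑ j, (v j + 1) := by
    rw [hk, hlen, Fin.sum_univ_succ]
    rfl
  have hcard : Q.card + ∑ j, w j * (v j + 1) = e * k := by
    have h1 := hC.card
    rw [Fin.sum_univ_succ, ← hk] at h1
    have h2 : w' 0 * r' 0 = 0 := by
      show 0 * N = 0
      rw [zero_mul]
    rw [h2, zero_add] at h1
    exact h1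
  obtain ⟨m, hm⟩ : ∃ m, k = m + 3 + a := ⟨k - 3 - a, by omega⟩
  let A := VS (fun j => aff (P j)) v a
  let B := VS (fun j => aff (P j)) w (e + m)
  have hAf : Module.Finite K ↥A := vs_fin (fun j => aff (P j)) v a
  have hBf : Module.Finite K ↥B := vs_fin (fun j => aff (P j)) w (e + m)
  have hQP : ∀ j, P j ∉ Q := fun j => hC.disj j.succ
  have hdual := hC.dual hGe hG0 hw1 (a := a) (b := e + m) (by rw [← hk]; omega) A B
    (fun f hf => ((mem_VS _ _ _ _).1 hf).1) (fun f hf => ((mem_VS _ _ _ _).1 hf).1) (by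
    intro f hf g hg i
    refine Fin.cases ?_ (fun j => ?_) i
    · intro h
      exact absurd rfl h
    · intro _
      show Van (aff (P j)) (w j + (v j + 1) - 1) (f * g)
      have h1 := van_mul (((mem_VS _ _ _ _).1 hf).2 j) (((mem_VS _ _ _ _).1 hg).2 j)
      have h2 : v j + w j = w j + (v j + 1) - 1 := by omega
      rwa [h2] at h1)
  have hM2 := mult_finite G m
  have hwv : ∑ j, w j * (v j + 1) = ∑ j, w j * v j + ∑ j, w j := by
    rw [← Finset.sum_add_distrib]
    exact Finset.sum_congr rfl fun j _ => by ring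
  have hdA := ev_dim Q A Z (by
    intro f hf hfQ
    have hf' := (mem_VS _ _ _ _).1 hf
    refine hZ f hf ?_
    by_contra hnd
    have hf0 : f ≠ 0 := fun h => hnd (by rw [h]; exact dvd_zero _)
    have h1 := bezQ hP hG hGe (fun j => (hw j).1) hf0 hf'.1 hf'.2 hnd hQP hC.zQ hfQ
    have h3 : e * k = e * (a + e + ∑ j, w j * (v j + 1) + 5) + e * ∑ j, (v j + 1) := by
      rw [hk2, hN]
      ring
    nlinarith [Nat.zero_le (∑ j, (v j + 1)), Nat.zero_le (∑ j, w j * v j),
      Nat.zero_le (∑ j, w j)])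
  have hdB := ev_dim Q B (mult G m) (by
    intro f hf hfQ
    have hf' := (mem_VS _ _ _ _).1 hf
    refine mem_mult hGe hG0 hf'.1 ?_ fun _ => rfl
    by_contra hnd
    have hf0 : f ≠ 0 := fun h => hnd (by rw [h]; exact dvd_zero _)
    have h1 := bezQ hP hG hGe (fun j => (hw j).1) hf0 hf'.1 hf'.2 hnd hQP hC.zQ hfQ
    rw [hm] at hcard
    nlinarith)
  rw [mult_finrank hG0] at hdB
  have hdim := le_dim w P (e + m)
  rw [← vs_eq_forms] at hdim
  show 2 * Module.finrank K ↥A + _ + _ + _ ≤ _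
  have hdim' : (e + m + 2).choose 2 ≤ Module.finrank K ↥B + ∑ j, (w j + 1).choose 2 := hdim
  have hsum : 2 * ∑ j, (w j + 1).choose 2 = ∑ j, w j * w j + ∑ j, w j := by
    rw [← Finset.sum_add_distrib, Finset.mul_sum]
    refine Finset.sum_congr rfl fun j _ => ?_
    rcases Nat.eq_zero_or_pos (w j) with h0 | h0
    · rw [h0]
      rfl
    · obtain ⟨x, hx⟩ : ∃ x, w j = x + 1 := ⟨w j - 1, by omega⟩
      rw [hx]
      have := H932R7.two_choose x
      show 2 * (x + 2).choose 2 = _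
      rw [this]
      ring
  have c1 : 2 * (e + m + 2).choose 2 = (e + m + 1) * (e + m + 2) := H932R7.two_choose (e + m)
  have c2 : 2 * (m + 2).choose 2 = (m + 1) * (m + 2) := H932R7.two_choose m
  rw [hm] at hcard
  nlinarith

/-- Points of a prime divisor. -/
theorem exists_new {K : Type} [Field K] [CharZero K] [IsAlgClosed K]
    {G : MvPolynomial (Fin 3) K} {e : ℕ} (hG : Irreducible G) (hGe : G.IsHomogeneous e)
    (hX : ¬ (X 2 : MvPolynomial (Fin 3) K) ∣ G) (T : Finset (Fin 2 → K)) :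
    ∃ q : Fin 2 → K, eval (aff q) G = 0 ∧ q ∉ T := by
  classical
  have h1 : ∀ p : Fin 2 → K, ∃ b : Fin 2, ¬ G ∣ mf b p := by
    intro p
    by_contra hcon
    push Not at hcon
    have h0 := (hG.dvd_irreducible_iff_associated (mf_irr 0 p)).1 (hcon 0)
    have h2 := (hG.dvd_irreducible_iff_associated (mf_irr 1 p)).1 (hcon 1)
    exact mf_ndvd p (h0.symm.trans h2).dvd
  choose b hb using h1
  have hnd : ¬ G ∣ ∏ p ∈ T, mf (b p) p := by
    intro h
    obtain ⟨p, -, hp⟩ := (hG.prime.dvd_finsetProd_iff _).1 h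
    exact hb p hp
  have hh : (∏ p ∈ T, mf (b p) p).IsHomogeneous (∑ p ∈ T, 1) :=
    IsHomogeneous.prod _ _ _ fun p _ => mf_hom (b p) p
  obtain ⟨q, hq1, hq2⟩ := Pool.Agent.TH167.RD.point_on hG hGe hX hh hnd
  refine ⟨q, hq1, fun hqT => hq2 ?_⟩
  rw [map_prod]
  exact Finset.prod_eq_zero hqT (by rw [eval_mf, sub_self])

/-- Finite sets of points of a prime divisor. -/
theorem exists_pts {K : Type} [Field K] [CharZero K] [IsAlgClosed K]
    {G : MvPolynomial (Fin 3) K} {e : ℕ} (hG : Irreducible G) (hGe : G.IsHomogeneous e)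
    (hX : ¬ (X 2 : MvPolynomial (Fin 3) K) ∣ G) (T : Finset (Fin 2 → K)) : ∀ n : ℕ,
    ∃ Q : Finset (Fin 2 → K), Q.card = n ∧ (∀ q ∈ Q, eval (aff q) G = 0) ∧ ∀ q ∈ Q, q ∉ T := by
  classical
  intro n
  induction n with
  | zero => exact ⟨∅, rfl, fun q hq => absurd hq (Finset.notMem_empty q),
      fun q hq => absurd hq (Finset.notMem_empty q)⟩
  | succ n ih =>
    obtain ⟨Q, h1, h2, h3⟩ := ih
    obtain ⟨q, hq1, hq2⟩ := exists_new hG hGe hX (Q ∪ T)
    rw [Finset.mem_union, not_or] at hq2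
    refine ⟨insert q Q, by rw [Finset.card_insert_of_notMem hq2.1, h1], ?_, ?_⟩
    · intro x hx
      rcases Finset.mem_insert.1 hx with rfl | hx
      · exact hq1
      · exact h2 x hx
    · intro x hx
      rcases Finset.mem_insert.1 hx with rfl | hx
      · exact hq2.2
      · exact h3 x hx

/-- Prime divisors. -/
theorem rr {K : Type} [Field K] [CharZero K] [IsAlgClosed K] {s : ℕ}
    {G : MvPolynomial (Fin 3) K} {e : ℕ} (hG : Irreducible G) (hGe : G.IsHomogeneous e)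
    (hX : ¬ (X 2 : MvPolynomial (Fin 3) K) ∣ G)
    {P : Fin s → Fin 2 → K} (hP : Function.Injective P) {w v : Fin s → ℕ}
    (hw : ∀ i, Ord (aff (P i)) (w i) G) {a : ℕ}
    (hpos : e * e + ∑ j, w j * (v j + 1) < e * (a + 3) + ∑ j, w j * w j)
    (Z : Submodule K (MvPolynomial (Fin 3) K)) [Module.Finite K ↥Z]
    (hZ : ∀ f ∈ VS (fun j => aff (P j)) v a, G ∣ f → f ∈ Z) :
    2 * Module.finrank K ↥(VS (fun j => aff (P j)) v a) + e * e + 2 * ∑ j, w j * v j +
      ∑ j, w j ≤ 2 * Module.finrank K ↥Z + 2 * (a * e) + 3 * e + ∑ j, w j * w j := by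
  classical
  rcases Nat.lt_or_ge e 2 with he | he
  · have he0 := deg_pos hG hGe
    have he1 : e = 1 := by omega
    subst he1
    have hw1 : ∀ j, w j ≤ 1 := fun j => van_le hG.ne_zero hGe (hw j).1
    have hww : ∑ j, w j * w j = ∑ j, w j := Finset.sum_congr rfl fun j _ => by
      have := hw1 j
      interval_cases w j <;> rfl
    have hwv : ∑ j, w j * (v j + 1) = ∑ j, w j * v j + ∑ j, w j := by
      rw [← Finset.sum_add_distrib]
      exact Finset.sum_congr rfl fun j _ => by ring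
    rw [hww, hwv] at hpos
    obtain ⟨n, hn⟩ : ∃ n, n + ∑ j, w j * v j = a + 1 := ⟨a + 1 - ∑ j, w j * v j, by omega⟩
    obtain ⟨Q, hQ1, hQ2, hQ3⟩ := exists_pts hG hGe hX (Finset.univ.image P) n
    have hQP : ∀ j, P j ∉ Q := fun j hj =>
      hQ3 _ hj (Finset.mem_image_of_mem P (Finset.mem_univ j))
    have hAf : Module.Finite K ↥(VS (fun j => aff (P j)) v a) := vs_fin (fun j => aff (P j)) v a
    have hdA := ev_dim Q (VS (fun j => aff (P j)) v a) Z (by
      intro f hf hfQ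
      have hf' := (mem_VS _ _ _ _).1 hf
      refine hZ f hf ?_
      by_contra hnd
      have hf0 : f ≠ 0 := fun h => hnd (by rw [h]; exact dvd_zero _)
      have h1 := bezQ hP hG hGe (fun j => (hw j).1) hf0 hf'.1 hf'.2 hnd hQP hQ2 hfQ
      omega)
    have h3 : Module.finrank K ↥((VS (fun j => aff (P j)) v a).map (ev Q)) ≤ Q.card := by
      have := Submodule.finrank_le ((VS (fun j => aff (P j)) v a).map (ev Q))
      rwa [Module.finrank_fintype_fun_eq_card, Fintype.card_coe] at this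
    rw [hww]
    omega
  · exact rr_two hG hGe he hP hw hpos Z hZ

end Pool.Agent.T9h41.SG
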