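import Pool.Agent.TH167.RD.Super
import Pool.Agent.TH167.CL.NegG

set_option autoImplicit false

/-!
# Systems with a reduced member: the spread of the singular points
-/

namespace Pool.Agent.T9h41.SG

open MvPolynomial Pool.Agent.W609 Pool.Agent.W609.CR Pool.Agent.TH167.SH Pool.Agent.TH167.TT
  Pool.Agent.TH167.DD Pool.Agent.TH167.T3 Pool.Agent.H248R5 Pool.Agent.H248R6
  Pool.Agent.W641.CR Pool.Agent.TH167.SM Pool.Agent.TH167.RD

/-- The subsystem through general points, if their conditions are independent on a smaller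
system. -/
theorem sub_points {L : Type} [Field L] {n : ℕ} {V X : Submodule L (MvPolynomial (Fin 3) L)}
    [Module.Finite L ↥X] (hVX : V ≤ X) (B : Fin n → Fin 2 → L)
    (hV : Module.finrank L ↥V = n + 1)
    (hone : ∀ Z : Submodule L (MvPolynomial (Fin 3) L),
      (∀ g, g ∈ Z ↔ g ∈ V ∧ ∀ k, eval (aff (B k)) g = 0) → Module.finrank L ↥Z ≤ 1)
    {Y : Submodule L (MvPolynomial (Fin 3) L)}
    (hY : ∀ g, g ∈ Y → g ∈ X ∧ ∀ k, eval (aff (B k)) g = 0) :
    Module.finrank L ↥Y + n ≤ Module.finrank L ↥X := by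
  classical
  have hVf : Module.Finite L ↥V := Submodule.finiteDimensional_of_le hVX
  obtain ⟨φ, hφ⟩ : ∃ φ : MvPolynomial (Fin 3) L →ₗ[L] (Fin n → L), ∀ g k,
      φ g k = eval (aff (B k)) g :=
    ⟨LinearMap.pi fun k => (MvPolynomial.aeval (aff (B k)) :
      MvPolynomial (Fin 3) L →ₐ[L] L).toLinearMap, fun g k => by
        show aeval (aff (B k)) g = _
        rw [MvPolynomial.aeval_eq_eval]⟩
  have hker : ∀ W : Submodule L (MvPolynomial (Fin 3) L), ∀ g,
      g ∈ (LinearMap.ker (φ.comp W.subtype)).map W.subtype ↔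
        g ∈ W ∧ ∀ k, eval (aff (B k)) g = 0 := by
    intro W g
    constructor
    · rintro ⟨g', hg', rfl⟩
      refine ⟨g'.2, fun k => ?_⟩
      have h1 := congrFun (LinearMap.mem_ker.1 hg') k
      rw [LinearMap.comp_apply, hφ] at h1
      exact h1
    · rintro ⟨h1, h2⟩
      refine ⟨⟨g, h1⟩, ?_, rfl⟩
      rw [SetLike.mem_coe, LinearMap.mem_ker]
      funext k
      rw [LinearMap.comp_apply, hφ]
      exact h2 k
  have r1 := (φ.comp V.subtype).finrank_range_add_finrank_ker
  have r2 := (φ.comp X.subtype).finrank_range_add_finrank_ker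
  have k1 := hone _ (hker V)
  rw [Submodule.finrank_map_subtype_eq] at k1
  have r3 : LinearMap.range (φ.comp V.subtype) ≤ LinearMap.range (φ.comp X.subtype) := by
    rintro _ ⟨g, rfl⟩
    exact ⟨⟨g.1, hVX g.2⟩, rfl⟩
  have r4 := Submodule.finrank_mono r3
  have r5 : Module.finrank L ↥(LinearMap.ker (φ.comp X.subtype)) + n ≤ Module.finrank L ↥X := by
    omega
  have hle : Y ≤ (LinearMap.ker (φ.comp X.subtype)).map X.subtype := by
    intro g hg
    exact (hker X g).2 (hY g hg)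
  have hf : Module.Finite L ↥((LinearMap.ker (φ.comp X.subtype)).map X.subtype) :=
    Submodule.finiteDimensional_of_le (Submodule.map_subtype_le _ _)
  have r6 := Submodule.finrank_mono hle
  rw [Submodule.finrank_map_subtype_eq] at r6
  omega

/-- **The spread of the singular points of a system with a reduced member.** -/
theorem spread_sq {K : Type} [Field K] [CharZero K] [IsAlgClosed K] {s : ℕ}
    {P : Fin s → Fin 2 → K} {w : Fin s → ℕ} {d : ℕ}
    (hgen : ∀ (K0 : Type) [Field K0] [CharZero K0] (P0 : Fin s → Fin 2 → K0),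
      AlgebraicIndependent ℚ (fun ij : Fin s × Fin 2 => P0 ij.1 ij.2) →
      Module.finrank K ↥(VS (fun j => aff (P j)) w d) =
        Module.finrank K0 ↥(VS (fun j => aff (P0 j)) w d))
    {f0 : MvPolynomial (Fin 3) K} (hf0 : f0 ∈ VS (fun j => aff (P j)) w d) (hsq0 : Squarefree f0)
    (S : Finset (Fin s)) {K1 : Type} [Field K1] [CharZero K1] {P1 : Fin s → Fin 2 → K1}
    (hP1 : AlgebraicIndependent ℚ (fun ij : Fin s × Fin 2 => P1 ij.1 ij.2)) :
    Module.finrank K ↥(VS (fun j => aff (P j)) w d) + nm S w ≤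
      Module.finrank K1 ↥(VS (fun j => aff (P1 j)) (al S w) d) := by
  classical
  obtain ⟨f, hf, hsq, hX⟩ := no_X2 hf0 hsq0
  have hfm := (mem_VS _ _ _ _).1 hf
  have hfne : f ≠ 0 := hsq.ne_zero
  have hfin := vs_fin (fun j => aff (P j)) w d
  have hpos := pos_of_mem hf hfne
  obtain ⟨n, hn⟩ : ∃ n, Module.finrank K ↥(VS (fun j => aff (P j)) w d) = n + 1 :=
    ⟨Module.finrank K ↥(VS (fun j => aff (P j)) w d) - 1, by omega⟩
  -- special points
  obtain ⟨Q0, hQ0, hQ1⟩ := pick_sq hsq hfm.1 hX n (VS (fun j => aff (P j)) w d)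
    (fun g hg => ((mem_VS _ _ _ _).1 hg).1) hf hn
  have hmem : ∀ g : MvPolynomial (Fin 3) K, g ∈ VS (fun j => aff (PPt P Q0 j))
      (wwt w (fun _ : Fin n => 1)) d ↔
      g ∈ VS (fun j => aff (P j)) w d ∧ ∀ k, eval (aff (Q0 k)) g = 0 := by
    intro g
    rw [mem_PPt]
    exact and_congr Iff.rfl (forall_congr' fun k => Pool.Agent.TH167.TT.van_one)
  have hfs := (hmem f).2 ⟨hf, hQ0⟩
  have h1s : Module.finrank K ↥(VS (fun j => aff (PPt P Q0 j)) (wwt w (fun _ : Fin n => 1)) d) =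
      1 := by
    refine (finrank_eq_one_iff_of_nonzero' ⟨f, hfs⟩
      (fun h => hfne (congrArg Subtype.val h))).2 fun g => ?_
    obtain ⟨g1, g2⟩ := (hmem g.1).1 g.2
    obtain ⟨c, hc⟩ := hQ1 g.1 g1 g2
    exact ⟨c, Subtype.ext hc⟩
  -- generic points
  obtain ⟨L, i1, i2, i3, R, hR⟩ := exists_closed (s + n)
  obtain ⟨A, hA⟩ : ∃ A : Fin s → Fin 2 → L, A = fun i => R (finSumFinEquiv (Sum.inl i)) :=
    ⟨_, rfl⟩
  obtain ⟨B, hB⟩ : ∃ B : Fin n → Fin 2 → L, B = fun k => R (finSumFinEquiv (Sum.inr k)) :=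
    ⟨_, rfl⟩
  have hRAB : R = PPt A B := by
    funext j
    obtain ⟨x, rfl⟩ := finSumFinEquiv.surjective j
    rcases x with i | k
    · rw [PPt_inl, hA]
      rfl
    · rw [PPt_inr, hB]
  have hAg : AlgebraicIndependent ℚ (fun ij : Fin s × Fin 2 => A ij.1 ij.2) := by
    have h4 := hR.comp (fun ij : Fin s × Fin 2 =>
      ((finSumFinEquiv (Sum.inl ij.1) : Fin (s + n)), ij.2)) (by
      rintro ⟨a, b⟩ ⟨a', b'⟩ h
      rw [Prod.mk.injEq] at h
      exact Prod.ext (Sum.inl.inj (finSumFinEquiv.injective h.1)) h.2)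
    rw [hA]
    exact h4
  have hAn : Module.finrank L ↥(VS (fun j => aff (A j)) w d) = n + 1 := by
    rw [← hgen L A hAg, hn]
  have hmemR : ∀ (u : Fin s → ℕ) (g : MvPolynomial (Fin 3) L), g ∈ VS (fun j => aff (R j))
      (wwt u (fun _ : Fin n => 1)) d ↔
      g ∈ VS (fun j => aff (A j)) u d ∧ ∀ k : Fin n, eval (aff (B k)) g = 0 := by
    intro u g
    have h5 := mem_PPt A B u (fun _ : Fin n => 1) d g
    rw [← hRAB] at h5
    rw [h5]
    exact and_congr Iff.rfl (forall_congr' fun k => Pool.Agent.TH167.TT.van_one)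
  have hfinA := vs_fin (fun j => aff (A j)) w d
  obtain ⟨φ, hφ⟩ : ∃ φ : ↥(VS (fun j => aff (A j)) w d) →ₗ[L] (Fin n → L), ∀ g k,
      φ g k = eval (aff (B k)) (g : MvPolynomial (Fin 3) L) :=
    ⟨LinearMap.pi fun k : Fin n =>
      (MvPolynomial.aeval (aff (B k)) :
        MvPolynomial (Fin 3) L →ₐ[L] L).toLinearMap.comp
          (VS (fun j => aff (A j)) w d).subtype, fun g k => by
        show aeval (aff (B k)) (g : MvPolynomial (Fin 3) L) = _
        rw [MvPolynomial.aeval_eq_eval]⟩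
  obtain ⟨G, hGm, hG0⟩ : ∃ G ∈ VS (fun j => aff (R j)) (wwt w (fun _ : Fin n => 1)) d,
      G ≠ 0 := by
    have h5 : LinearMap.ker φ ≠ ⊥ := LinearMap.ker_ne_bot_of_finrank_lt (by
      rw [hAn, Module.finrank_fintype_fun_eq_card, Fintype.card_fin]
      omega)
    obtain ⟨g, hg, hg0⟩ := (Submodule.ne_bot_iff _).1 h5
    refine ⟨g.1, (hmemR w g.1).2 ⟨g.2, fun k => ?_⟩, fun h => hg0 (Subtype.ext h)⟩
    have h6 := congrFun (LinearMap.mem_ker.1 hg) k
    rw [hφ] at h6
    exact h6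
  have h1 : Module.finrank L ↥(VS (fun j => aff (R j)) (wwt w (fun _ : Fin n => 1)) d) = 1 := by
    refine le_antisymm ?_ (pos_of_mem hGm hG0)
    exact (semi hR (PPt P Q0) (wwt w (fun _ : Fin n => 1)) d).trans h1s.le
  have hGsq : Squarefree G := sq_of_special hR h1s hfs hfne hsq hGm hG0
  -- the spread of the singular points of the rigid system
  obtain ⟨T, hT⟩ : ∃ T : Finset (Fin (s + n)), T =
    Finset.univ.filter fun x => ∀ i, x = finSumFinEquiv (Sum.inl i) → i ∈ S := ⟨_, rfl⟩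
  have hTl : ∀ i : Fin s, finSumFinEquiv (Sum.inl i) ∈ T ↔ i ∈ S := by
    intro i
    rw [hT, Finset.mem_filter]
    constructor
    · rintro ⟨-, h⟩
      exact h i rfl
    · intro hi
      refine ⟨Finset.mem_univ _, fun j hj => ?_⟩
      have h3 := Sum.inl.inj (finSumFinEquiv.injective hj)
      rwa [← h3]
  have hTr : ∀ k : Fin n, (finSumFinEquiv (Sum.inr k) : Fin (s + n)) ∈ T := by
    intro k
    rw [hT, Finset.mem_filter]
    refine ⟨Finset.mem_univ _, fun j hj => ?_⟩
    exact absurd (finSumFinEquiv.injective hj) (by simp)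
  have h3 := tlem_gen hR h1 hGm hG0 hGsq T
  have hnm : ∑ j, (if j ∈ T then 0 else min (wwt w (fun _ : Fin n => 1) j) 2) = nm S w := by
    unfold nm
    rw [← Equiv.sum_comp finSumFinEquiv, Fintype.sum_sum_type]
    have e1 : ∀ i : Fin s, (if finSumFinEquiv (Sum.inl i) ∈ T then 0 else
        min (wwt w (fun _ : Fin n => 1) (finSumFinEquiv (Sum.inl i))) 2) =
          if i ∈ S then 0 else min (w i) 2 := by
      intro i
      rw [wwt_inl]
      by_cases hi : i ∈ S
      · rw [if_pos hi, if_pos ((hTl i).2 hi)]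
      · rw [if_neg hi, if_neg fun h => hi ((hTl i).1 h)]
    have e2 : ∀ k : Fin n, (if finSumFinEquiv (Sum.inr k) ∈ T then 0 else
        min (wwt w (fun _ : Fin n => 1) (finSumFinEquiv (Sum.inr k))) 2) = 0 := by
      intro k
      rw [if_pos (hTr k)]
    rw [Finset.sum_congr rfl fun i _ => e1 i, Finset.sum_congr rfl fun k _ => e2 k]
    simp
  have hww : (fun j => if j ∈ T then wwt w (fun _ : Fin n => 1) j else
      wwt w (fun _ : Fin n => 1) j - 1) = wwt (al S w) (fun _ : Fin n => 1) := by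
    funext j
    obtain ⟨x, rfl⟩ := finSumFinEquiv.surjective j
    rcases x with i | k
    · show (if finSumFinEquiv (Sum.inl i) ∈ T then _ else _) = _
      rw [wwt_inl, wwt_inl]
      unfold al
      by_cases hi : i ∈ S
      · rw [if_pos hi, if_pos ((hTl i).2 hi)]
      · rw [if_neg hi, if_neg fun h => hi ((hTl i).1 h)]
    · show (if finSumFinEquiv (Sum.inr k) ∈ T then _ else _) = _
      rw [wwt_inr, wwt_inr, if_pos (hTr k)]
  rw [hnm, hww] at h3
  have hal : ∀ j, al S w j ≤ w j := fun j => by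
    unfold al
    split_ifs <;> omega
  have hfinX := vs_fin (fun j => aff (A j)) (al S w) d
  have h4 := sub_points (V := VS (fun j => aff (A j)) w d) (X := VS (fun j => aff (A j)) (al S w) d)
    (vs_le hal) B hAn (fun Z hZ => by
      have h5 : Z = VS (fun j => aff (R j)) (wwt w (fun _ : Fin n => 1)) d := by
        ext g
        rw [hZ, hmemR]
      rw [h5, h1]) (Y := VS (fun j => aff (R j)) (wwt (al S w) (fun _ : Fin n => 1)) d)
    (fun g hg => (hmemR _ g).1 hg)
  rw [gen_eq hP1 hAg (al S w) d]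
  omega

end Pool.Agent.T9h41.SG
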