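import Pool.Agent.T9h41.SG.Main

set_option autoImplicit false

/-!
# Systems with a reduced member and nine arbitrary multiplicities
-/

namespace Pool.Agent.T9h41.SG

open MvPolynomial Pool.Agent.W609 Pool.Agent.W609.CR Pool.Agent.TH167.SH Pool.Agent.TH167.TT
  Pool.Agent.TH167.DD Pool.Agent.TH167.T3 Pool.Agent.H248R5 Pool.Agent.H248R6
  Pool.Agent.W641.CR Pool.Agent.TH167.SM Pool.Agent.TH167.RD

theorem tch (n : ℕ) : 2 * (n + 1).choose 2 = n * (n + 1) := by
  rcases Nat.eq_zero_or_pos n with rfl | hn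
  · rfl
  · obtain ⟨x, rfl⟩ : ∃ x, n = x + 1 := ⟨n - 1, by omega⟩
    exact H932R7.two_choose x

/-- The proportion of the dependent conditions grows with the multiplicity. -/
theorem ratio {m μ Q : ℕ} (h : m ≤ μ) :
    (m + 1 - Q).choose 2 * (μ + 1).choose 2 ≤ (μ + 1 - Q).choose 2 * (m + 1).choose 2 := by
  rcases Nat.lt_or_ge m (Q + 1) with h1 | h1
  · rw [Nat.choose_eq_zero_of_lt (by omega), zero_mul]
    exact Nat.zero_le _
  · obtain ⟨a, ha⟩ : ∃ a, m = Q + a := ⟨m - Q, by omega⟩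
    obtain ⟨b, hb⟩ : ∃ b, μ = Q + b := ⟨μ - Q, by omega⟩
    have e1 : m + 1 - Q = a + 1 := by omega
    have e2 : μ + 1 - Q = b + 1 := by omega
    rw [e1, e2]
    have h2 := tch a
    have h3 := tch b
    have h4 := tch m
    have h5 := tch μ
    have h6 : (a * μ) * ((a + 1) * (μ + 1)) ≤ (b * m) * ((b + 1) * (m + 1)) := by
      refine Nat.mul_le_mul ?_ ?_
      · rw [ha, hb]
        nlinarith
      · rw [ha, hb]
        nlinarith
    nlinarith

/-- The bound for the quotient of the dependent and the independent conditions. -/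
def rho (μ q : ℕ) : ℚ := ((μ + 1 - max 2 q).choose 2 : ℚ) /
  (((μ + 1).choose 2 : ℚ) - ((μ + 1 - max 2 q).choose 2 : ℚ))

theorem rho_pos {μ q : ℕ} (hμ : 1 ≤ μ) :
    (0 : ℚ) < ((μ + 1).choose 2 : ℚ) - ((μ + 1 - max 2 q).choose 2 : ℚ) := by
  have h1 : (μ + 1 - max 2 q).choose 2 < (μ + 1).choose 2 := by
    have h2 := le_max_left 2 q
    have h3 : (μ + 1 - max 2 q).choose 2 ≤ μ.choose 2 := Nat.choose_le_choose 2 (by omega)
    have h4 : (μ + 1).choose 2 = μ.choose 1 + μ.choose 2 := Nat.choose_succ_succ' _ _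
    rw [Nat.choose_one_right] at h4
    omega
  have : ((μ + 1 - max 2 q).choose 2 : ℚ) < ((μ + 1).choose 2 : ℚ) := by exact_mod_cast h1
  linarith

theorem rho_nonneg {μ q : ℕ} (hμ : 1 ≤ μ) : 0 ≤ rho μ q :=
  div_nonneg (Nat.cast_nonneg _) (rho_pos hμ).le

/-- The constant. -/
def kap (μ : ℕ) : ℚ := ∑ q ∈ Finset.Icc 1 (μ - 1), rho μ q

section

variable {K : Type} [Field K] [CharZero K] [IsAlgClosed K] {r d μ : ℕ}
    {w : Fin (r + 4) → ℕ} {P : Fin (r + 4) → Fin 2 → K}

/-- The property of the points. -/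
def Gen {K : Type} [Field K] {s : ℕ} (P : Fin s → Fin 2 → K) (d : ℕ) (w : Fin s → ℕ) : Prop :=
  ∀ (K0 : Type) [Field K0] [CharZero K0] (P0 : Fin s → Fin 2 → K0),
      AlgebraicIndependent ℚ (fun ij : Fin s × Fin 2 => P0 ij.1 ij.2) → ∀ u ∈ box d w,
      Module.finrank K ↥(VS (fun j => aff (P j)) u d) =
        Module.finrank K0 ↥(VS (fun j => aff (P0 j)) u d)

omit [CharZero K] [IsAlgClosed K] in
theorem Gen.mono {v : Fin (r + 4) → ℕ} (h : Gen P d w) (hv : ∀ i, v i ≤ w i) : Gen P d v :=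
  fun K0 _ _ P0 hP0 u hu => h K0 P0 hP0 u (mem_box.2 fun i => by
    have := mem_box.1 hu i
    have := hv i
    omega)

/-- No curve with the multiplicities `v` at the points of `S` has a multiplicity larger than `D` at
another point. -/
def Wid {K : Type} [Field K] {s : ℕ} (P : Fin s → Fin 2 → K) (d : ℕ) (S : Finset (Fin s))
    (D : ℕ) (v : Fin s → ℕ) : Prop :=
  ∀ k, k ∉ S → Module.finrank K
    ↥(VS (fun j => aff (P j)) (Function.update (rs S v) k (D + 1)) d) = 0

/-- Few leading forms and the dimension. -/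
theorem rk_dim {S : Finset (Fin (r + 4))} {D : ℕ} {v : Fin (r + 4) → ℕ}
    {f : MvPolynomial (Fin 3) K} (hg : Gen P d v) (hD : Wid P d S D v)
    (hf : f ∈ VS (fun j => aff (P j)) v d) (hsq : Squarefree f) {k : Fin (r + 4)} (hk : k ∉ S)
    (h : rk P d v k ≤ v k) : Module.finrank K ↥(VS (fun j => aff (P j)) v d) ≤
      rk P d v k * (D + 1 - v k) := by
  classical
  obtain ⟨-, -, -, h4⟩ := main_all hg hf hsq
  refine h4 k D ?_ h
  have hf : Module.Finite K ↥(VS (fun j => aff (P j)) (Function.update (rs S v) k (D + 1)) d) :=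
    vs_fin _ _ _
  have h1 : VS (fun j => aff (P j)) (Function.update v k (D + 1)) d ≤
      VS (fun j => aff (P j)) (Function.update (rs S v) k (D + 1)) d := by
    intro g hg
    refine vs_le (fun i => ?_) hg
    by_cases hi : i = k
    · rw [hi, Function.update_self, Function.update_self]
    · rw [Function.update_of_ne hi, Function.update_of_ne hi]
      exact rs_le S v i
  have h2 := Submodule.finrank_mono h1
  rw [hD k hk] at h2
  omega

/-- Large dimension and many leading forms. -/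
theorem rk_large {S : Finset (Fin (r + 4))} {D : ℕ} {v : Fin (r + 4) → ℕ}
    {f : MvPolynomial (Fin 3) K} (hg : Gen P d v) (hD : Wid P d S D v)
    (hf : f ∈ VS (fun j => aff (P j)) v d) (hsq : Squarefree f) {q : ℕ}
    (hq : q * D < Module.finrank K ↥(VS (fun j => aff (P j)) v d)) (k : Fin (r + 4)) (hk : k ∉ S) :
    v k = 0 ∨ min (v k) (q + 1) ≤ rk P d v k := by
  rcases Nat.eq_zero_or_pos (v k) with h0 | h0
  · exact Or.inl h0
  right
  by_contra hcon
  push Not at hcon
  have h2 := rk_dim hg hD hf hsq hk (by omega)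
  have h3 : rk P d v k * (D + 1 - v k) ≤ q * D := Nat.mul_le_mul (by omega) (by omega)
  omega

/-- One stage. -/
theorem stage {S : Finset (Fin (r + 4))} {D : ℕ} {v : Fin (r + 4) → ℕ}
    {f : MvPolynomial (Fin 3) K} (hg : Gen P d v) (hD : Wid P d S D v)
    (hf : f ∈ VS (fun j => aff (P j)) v d) (hsq : Squarefree f) {q : ℕ}
    (hq : q * D < Module.finrank K ↥(VS (fun j => aff (P j)) v d))
    {A : Finset (Fin (r + 4))} (hSA : S ⊆ A) (hA : ∀ j, j ∉ A → v j ≤ μ) (hμ : 1 ≤ μ) :
    ((sp P d v - sp P d (rs A v) : ℤ) : ℚ) ≤ rho μ (q + 1) *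
      ((Module.finrank K ↥(VS (fun j => aff (P j)) (rs A v) d) : ℚ) -
        (Module.finrank K ↥(VS (fun j => aff (P j)) v d) : ℚ)) := by
  classical
  obtain ⟨-, h2, -, -⟩ := main_all hg hf hsq
  obtain ⟨-, h3⟩ := h2 A
  have h4 : ∑ j, (if j ∈ A then 0 else (v j + 1 - max 2 (rk P d v j)).choose 2) ≤
      ∑ j, (if j ∈ A then 0 else (v j + 1 - max 2 (q + 1)).choose 2) := by
    refine Finset.sum_le_sum fun j _ => ?_
    split_ifs with hjA
    · exact le_rfl
    · rcases rk_large hg hD hf hsq hq j (fun h => hjA (hSA h)) with h5 | h5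
      · rw [h5]
        rw [Nat.choose_eq_zero_of_lt (by omega)]
        exact Nat.zero_le _
      · rcases Nat.lt_or_ge (rk P d v j) (q + 1) with h6 | h6
        · rw [Nat.choose_eq_zero_of_lt (by omega)]
          exact Nat.zero_le _
        · exact Nat.choose_le_choose 2 (by omega)
  have h5 : (∑ j, (if j ∈ A then 0 else (v j + 1 - max 2 (q + 1)).choose 2)) *
      (μ + 1).choose 2 ≤ (μ + 1 - max 2 (q + 1)).choose 2 *
        ∑ j, (if j ∈ A then 0 else (v j + 1).choose 2) := by
    rw [Finset.sum_mul, Finset.mul_sum]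
    refine Finset.sum_le_sum fun j _ => ?_
    split_ifs with h
    · simp
    · exact ratio (hA j h)
  have h6 : chi d (rs A v) = chi d v + ((∑ j, (if j ∈ A then 0 else (v j + 1).choose 2) : ℕ) : ℤ) := by
    rw [chi_cast, chi_cast]
    have h7 : ∑ j, (v j + 1).choose 2 = ∑ j, (rs A v j + 1).choose 2 +
        ∑ j, (if j ∈ A then 0 else (v j + 1).choose 2) := by
      rw [← Finset.sum_add_distrib]
      refine Finset.sum_congr rfl fun j _ => ?_
      unfold rs
      split_ifs
      · rfl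
      · simp
    rw [h7]
    push_cast
    ring
  have hD : sp P d v - sp P d (rs A v) ≤
      ((∑ j, (if j ∈ A then 0 else (v j + 1 - max 2 (q + 1)).choose 2) : ℕ) : ℤ) := by
    have h8 : ((∑ j, (if j ∈ A then 0 else (v j + 1 - max 2 (rk P d v j)).choose 2) : ℕ) : ℤ) ≤
      ((∑ j, (if j ∈ A then 0 else (v j + 1 - max 2 (q + 1)).choose 2) : ℕ) : ℤ) := by
      exact_mod_cast h4
    linarith
  have hY : (Module.finrank K ↥(VS (fun j => aff (P j)) (rs A v) d) : ℤ) -
      (Module.finrank K ↥(VS (fun j => aff (P j)) v d) : ℤ) =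
      ((∑ j, (if j ∈ A then 0 else (v j + 1).choose 2) : ℕ) : ℤ) -
        (sp P d v - sp P d (rs A v)) := by
    unfold sp
    rw [h6]
    ring
  have hY' : (Module.finrank K ↥(VS (fun j => aff (P j)) (rs A v) d) : ℚ) -
      (Module.finrank K ↥(VS (fun j => aff (P j)) v d) : ℚ) =
      ((∑ j, (if j ∈ A then 0 else (v j + 1).choose 2) : ℕ) : ℚ) -
        ((sp P d v - sp P d (rs A v) : ℤ) : ℚ) := by
    exact_mod_cast hY
  rw [hY']
  obtain ⟨x, hx⟩ : ∃ x : ℚ, x = ((sp P d v - sp P d (rs A v) : ℤ) : ℚ) := ⟨_, rfl⟩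
  obtain ⟨X, hX⟩ : ∃ X : ℕ, X = ∑ j, (if j ∈ A then 0 else (v j + 1).choose 2) := ⟨_, rfl⟩
  obtain ⟨Δ, hΔ⟩ : ∃ Δ : ℕ, Δ = ∑ j, (if j ∈ A then 0 else (v j + 1 - max 2 (q + 1)).choose 2) :=
    ⟨_, rfl⟩
  rw [← hx, ← hX]
  rw [← hX, ← hΔ] at h5
  have hD' : x ≤ (Δ : ℚ) := by
    rw [hx, hΔ]
    exact_mod_cast hD
  have hp := rho_pos (q := q + 1) hμ
  unfold rho
  rw [div_mul_eq_mul_div, le_div_iff₀ hp]
  have h5' : (Δ : ℚ) * ((μ + 1).choose 2 : ℚ) ≤ ((μ + 1 - max 2 (q + 1)).choose 2 : ℚ) * (X : ℚ) := by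
    exact_mod_cast h5
  have hC : (0 : ℚ) ≤ ((μ + 1).choose 2 : ℚ) := Nat.cast_nonneg _
  nlinarith [mul_le_mul_of_nonneg_right hD' hC]

omit [CharZero K] [IsAlgClosed K] in
theorem rs_rs {A B : Finset (Fin (r + 4))} (h : A ⊆ B) : rs A (rs B w) = rs A w := by
  funext j
  unfold rs
  by_cases hj : j ∈ A
  · rw [if_pos hj, if_pos hj, if_pos (h hj)]
  · rw [if_neg hj, if_neg hj]

/-- The superabundance for large dimensions. -/
theorem sp_zero {v : Fin (r + 4) → ℕ} {f : MvPolynomial (Fin 3) K} {D : ℕ}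
    {S : Finset (Fin (r + 4))} (hS : S.card ≤ 9) (hg : Gen P d v) (hD : Wid P d S D v)
    (hf : f ∈ VS (fun j => aff (P j)) v d) (hsq : Squarefree f)
    (hq : ∀ j, j ∉ S → v j ≤ 2 ∨
      (v j - 1) * (D + 1 - v j) < Module.finrank K ↥(VS (fun j => aff (P j)) v d)) :
    sp P d v = 0 := by
  obtain ⟨-, -, h3, -⟩ := main_all hg hf hsq
  have h4 := h3 S hS
  rw [Finset.sum_eq_zero fun j _ => by
    split_ifs with h
    · rfl
    · rcases hq j h with h6 | h6
      · omega
      · by_contra hne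
        have h7 := rk_dim hg hD hf hsq h (by omega)
        have h8 : rk P d v j * (D + 1 - v j) ≤ (v j - 1) * (D + 1 - v j) :=
          Nat.mul_le_mul_right _ (by omega)
        omega] at h4
  exact le_antisymm (by simpa using h4) (sp_nonneg _ _ _)

/-- The superabundance of the systems with a reduced member, nine arbitrary multiplicities and the
others at most `μ`. -/
theorem claim (hμ : 1 ≤ μ) (hg : Gen P d w) {f : MvPolynomial (Fin 3) K}
    (hf : f ∈ VS (fun j => aff (P j)) w d) (hsq : Squarefree f)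
    {S : Finset (Fin (r + 4))} (hS : S.card ≤ 9) (hw : ∀ j, j ∉ S → w j ≤ μ) {D : ℕ}
    (hD : Wid P d S D w) : ∀ (n q : ℕ),
    q + n + 1 = μ → ∀ A : Finset (Fin (r + 4)), S ⊆ A →
      q * D < Module.finrank K ↥(VS (fun j => aff (P j)) (rs A w) d) →
      (sp P d (rs A w) : ℚ) ≤ (∑ i ∈ Finset.Ioc q (μ - 1), rho μ i) *
        ((D : ℚ) + ((μ + 1).choose 2 : ℚ)) := by
  classical
  have hgA : ∀ A : Finset (Fin (r + 4)), Gen P d (rs A w) := fun A => hg.mono (rs_le A w)
  have hfA : ∀ A : Finset (Fin (r + 4)), f ∈ VS (fun j => aff (P j)) (rs A w) d :=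
    fun A => vs_le (rs_le A w) hf
  have hwA : ∀ A : Finset (Fin (r + 4)), ∀ j, j ∉ S → rs A w j ≤ μ :=
    fun A j hj => (rs_le A w j).trans (hw j hj)
  have hDA : ∀ A : Finset (Fin (r + 4)), S ⊆ A → Wid P d S D (rs A w) := fun A hSA k hk => by
    rw [rs_rs hSA]
    exact hD k hk
  have hS0 : sp P d (rs S w) = 0 := by
    obtain ⟨-, -, h3, -⟩ := main_all (hgA S) (hfA S) hsq
    have h4 := h3 S hS
    rw [Finset.sum_eq_zero fun j _ => by
      split_ifs with h
      · rfl
      · unfold rs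
        rw [if_neg h]
        omega] at h4
    exact le_antisymm (by simpa using h4) (sp_nonneg _ _ _)
  have hdC : (0 : ℚ) ≤ (D : ℚ) + ((μ + 1).choose 2 : ℚ) := by positivity
  intro n
  induction n with
  | zero =>
    intro q hq A hSA hh
    have hq1 : μ - 1 = q := by omega
    have h1 := sp_zero hS (hgA A) (hDA A hSA) (hfA A) hsq (fun j hj => by
      have h2 := hwA A j hj
      rcases Nat.lt_or_ge 2 (rs A w j) with h3 | h3
      · right
        have h4 : (rs A w j - 1) * (D + 1 - rs A w j) ≤ q * D :=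
          Nat.mul_le_mul (by omega) (by omega)
        omega
      · exact Or.inl h3)
    rw [h1, hq1, Finset.Ioc_self, Finset.sum_empty, zero_mul]
    simp
  | succ n ih =>
    intro q hq A hSA hh
    have hIoc : ∑ i ∈ Finset.Ioc q (μ - 1), rho μ i =
        rho μ (q + 1) + ∑ i ∈ Finset.Ioc (q + 1) (μ - 1), rho μ i := by
      have h1 : Finset.Ioc q (μ - 1) = insert (q + 1) (Finset.Ioc (q + 1) (μ - 1)) := by
        ext x
        rw [Finset.mem_insert, Finset.mem_Ioc, Finset.mem_Ioc]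
        omega
      rw [h1, Finset.sum_insert]
      rw [Finset.mem_Ioc]
      omega
    have hrn := rho_nonneg (q := q + 1) hμ
    have hsum : (0 : ℚ) ≤ ∑ i ∈ Finset.Ioc (q + 1) (μ - 1), rho μ i :=
      Finset.sum_nonneg fun i _ => rho_nonneg hμ
    rw [hIoc, add_mul]
    -- the final stage
    have key : ∀ A' : Finset (Fin (r + 4)), S ⊆ A' → A' ⊆ A →
        Module.finrank K ↥(VS (fun j => aff (P j)) (rs A' w) d) ≤
          (q + 1) * D + (μ + 1).choose 2 →
        (sp P d (rs A w) : ℚ) ≤ rho μ (q + 1) * ((D : ℚ) + ((μ + 1).choose 2 : ℚ)) +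
          (sp P d (rs A' w) : ℚ) := by
      intro A' hSA' hA'A hup
      have h1 := stage (hgA A) (hDA A hSA) (hfA A) hsq hh (A := A') hSA'
        (fun j hj => hwA A j fun h => hj (hSA' h)) hμ
      rw [rs_rs hA'A] at h1
      have h2 : (Module.finrank K ↥(VS (fun j => aff (P j)) (rs A' w) d) : ℚ) ≤
          ((q : ℚ) + 1) * D + ((μ + 1).choose 2 : ℚ) := by exact_mod_cast hup
      have h3 : (q : ℚ) * D ≤ (Module.finrank K ↥(VS (fun j => aff (P j)) (rs A w) d) : ℚ) := by
        exact_mod_cast hh.le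
      have h4 : rho μ (q + 1) *
          ((Module.finrank K ↥(VS (fun j => aff (P j)) (rs A' w) d) : ℚ) -
            (Module.finrank K ↥(VS (fun j => aff (P j)) (rs A w) d) : ℚ)) ≤
          rho μ (q + 1) * ((D : ℚ) + ((μ + 1).choose 2 : ℚ)) := by
        refine mul_le_mul_of_nonneg_left ?_ hrn
        linarith
      have h5 : ((sp P d (rs A w) - sp P d (rs A' w) : ℤ) : ℚ) =
          (sp P d (rs A w) : ℚ) - (sp P d (rs A' w) : ℚ) := by push_cast; rfl
      rw [h5] at h1
      linarith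
    rcases Nat.lt_or_ge ((q + 1) * D)
      (Module.finrank K ↥(VS (fun j => aff (P j)) (rs A w) d)) with h1 | h1
    · have h2 := ih (q + 1) (by omega) A hSA h1
      have h3 : 0 ≤ rho μ (q + 1) * ((D : ℚ) + ((μ + 1).choose 2 : ℚ)) := mul_nonneg hrn hdC
      linarith
    rcases Nat.lt_or_ge ((q + 1) * D)
      (Module.finrank K ↥(VS (fun j => aff (P j)) (rs S w) d)) with h2 | h2
    · -- a maximal subset
      obtain ⟨A', hA'm, hmax⟩ := Finset.exists_max_image
        (A.powerset.filter fun B => S ⊆ B ∧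
          (q + 1) * D < Module.finrank K ↥(VS (fun j => aff (P j)) (rs B w) d)) Finset.card
        ⟨S, Finset.mem_filter.2 ⟨Finset.mem_powerset.2 hSA, Finset.Subset.refl _, h2⟩⟩
      obtain ⟨hA'A, hSA', hA'h⟩ := Finset.mem_filter.1 hA'm
      rw [Finset.mem_powerset] at hA'A
      obtain ⟨k, hkA, hkA'⟩ : ∃ k ∈ A, k ∉ A' := by
        by_contra hcon
        push Not at hcon
        have : A' = A := Finset.Subset.antisymm hA'A hcon
        rw [this] at hA'h
        omega
      have h3 : Module.finrank K ↥(VS (fun j => aff (P j)) (rs (insert k A') w) d) ≤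
          (q + 1) * D := by
        by_contra hcon
        push Not at hcon
        have h4 := hmax (insert k A') (Finset.mem_filter.2 ⟨Finset.mem_powerset.2
          (Finset.insert_subset hkA hA'A), hSA'.trans (Finset.subset_insert _ _), hcon⟩)
        rw [Finset.card_insert_of_notMem hkA'] at h4
        omega
      have h4 : Module.finrank K ↥(VS (fun j => aff (P j)) (rs A' w) d) ≤
          (q + 1) * D + (μ + 1).choose 2 := by
        have h5 := sp_mono P d (w := rs A' w) (w' := rs (insert k A') w) (fun j => by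
          unfold rs
          by_cases hj : j ∈ A'
          · rw [if_pos hj, if_pos (Finset.mem_insert_of_mem hj)]
          · rw [if_neg hj]
            exact Nat.zero_le _)
        unfold sp at h5
        rw [chi_rs, chi_rs, Finset.sum_insert hkA'] at h5
        have h6 : (w k + 1).choose 2 ≤ (μ + 1).choose 2 :=
          Nat.choose_le_choose 2 (by
            have := hw k (fun h => hkA' (hSA' h))
            omega)
        push_cast at h5
        have h6' : (((w k + 1).choose 2 : ℕ) : ℤ) ≤ (((μ + 1).choose 2 : ℕ) : ℤ) := by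
          exact_mod_cast h6
        have h3' : (Module.finrank K ↥(VS (fun j => aff (P j)) (rs (insert k A') w) d) : ℤ) ≤
          (((q + 1) * D : ℕ) : ℤ) := by exact_mod_cast h3
        have h7 : (Module.finrank K ↥(VS (fun j => aff (P j)) (rs A' w) d) : ℤ) ≤
          (((q + 1) * D + (μ + 1).choose 2 : ℕ) : ℤ) := by
          rw [Nat.cast_add]
          linarith
        exact_mod_cast h7
      have h5 := key A' hSA' hA'A h4
      have h6 := ih (q + 1) (by omega) A' hSA' hA'h
      linarith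
    · have h3 := key S (Finset.Subset.refl _) hSA (by omega)
      rw [hS0] at h3
      have h4 : (0 : ℚ) ≤ (∑ i ∈ Finset.Ioc (q + 1) (μ - 1), rho μ i) *
        ((D : ℚ) + ((μ + 1).choose 2 : ℚ)) := mul_nonneg hsum hdC
      push_cast at h3
      linarith

/-- The bound for the superabundance. -/
theorem sp_bound (hμ : 1 ≤ μ) (hg : Gen P d w) {f : MvPolynomial (Fin 3) K}
    (hf : f ∈ VS (fun j => aff (P j)) w d) (hsq : Squarefree f)
    {S : Finset (Fin (r + 4))} (hS : S.card ≤ 9) (hw : ∀ j, j ∉ S → w j ≤ μ) {D : ℕ}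
    (hD : Wid P d S D w) :
    (sp P d w : ℚ) ≤ kap μ * ((D : ℚ) + ((μ + 1).choose 2 : ℚ)) := by
  classical
  have h1 := claim hμ hg hf hsq hS hw hD (μ - 1) 0 (by omega) Finset.univ (Finset.subset_univ _) (by
    have h2 : rs Finset.univ w = w := by
      funext j
      unfold rs
      rw [if_pos (Finset.mem_univ j)]
    rw [h2, zero_mul]
    exact pos_of_mem hf hsq.ne_zero)
  have h2 : rs Finset.univ w = w := by
    funext j
    unfold rs
    rw [if_pos (Finset.mem_univ j)]
  have h3 : Finset.Ioc 0 (μ - 1) = Finset.Icc 1 (μ - 1) := by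
    ext x
    rw [Finset.mem_Ioc, Finset.mem_Icc]
    omega
  rw [h2, h3] at h1
  exact h1

end

end Pool.Agent.T9h41.SG
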